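import Pool.Agent.H5.CF.Defs

set_option autoImplicit false

/-!
# Free products of co-context-free groups: statements of the modules
-/

namespace Pool.Agent.H5.CF

open scoped BigOperators

/-! ## Structure theorem -/

/-- **T1 (surgery on trees).** -/
def TargetT1 : Prop :=
  ∀ (K : ℕ) (S : Sys K),
    -- plugging a tree into a context
    (∀ (a b : ℕ) (X Y : Set S.Λ) (ℓ ℓ' : S.Λ) (m m' : Fin K → ℕ),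
      CL S a X ℓ ℓ' m → TL S b Y ℓ' m' → TL S (a + b) (X ∪ Y) ℓ (m + m')) ∧
    -- composing contexts
    (∀ (a b : ℕ) (X Y : Set S.Λ) (ℓ ℓ' ℓ'' : S.Λ) (m m' : Fin K → ℕ),
      CL S a X ℓ ℓ' m → CL S b Y ℓ' ℓ'' m' → CL S (a + b) (X ∪ Y) ℓ ℓ'' (m + m')) ∧
    -- extracting a subtree with a given label
    (∀ (n : ℕ) (X : Set S.Λ) (ℓ ℓ' : S.Λ) (m : Fin K → ℕ), TL S n X ℓ m → ℓ' ∈ X →
      ∃ (a b : ℕ) (Y Z : Set S.Λ) (m₁ m₂ : Fin K → ℕ),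
        CL S a Y ℓ ℓ' m₁ ∧ TL S b Z ℓ' m₂ ∧ n = a + b ∧ X = Y ∪ Z ∧ m = m₁ + m₂) ∧
    -- inserting a pump
    (∀ (n a : ℕ) (X Y : Set S.Λ) (ℓ ℓ' : S.Λ) (m p : Fin K → ℕ), TL S n X ℓ m → ℓ' ∈ X →
      CL S a Y ℓ' ℓ' p → TL S (n + a) (X ∪ Y) ℓ (m + p)) ∧
    -- labels of the root, sizes, and comparison with `Tr`
    (∀ (n : ℕ) (X : Set S.Λ) (ℓ : S.Λ) (m : Fin K → ℕ), TL S n X ℓ m → ℓ ∈ X ∧ 0 < n) ∧
    (∀ (n : ℕ) (X : Set S.Λ) (ℓ ℓ' : S.Λ) (m : Fin K → ℕ), CL S n X ℓ ℓ' m → ℓ ∈ X ∧ ℓ' ∈ X) ∧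
    (∀ (ℓ : S.Λ) (m : Fin K → ℕ), Tr S ℓ m ↔ ∃ (n : ℕ) (X : Set S.Λ), TL S n X ℓ m)

/-- **T2 (supports and nesting).** -/
def TargetT2 : Prop :=
  ∀ (K : ℕ) (S : Sys K),
    (∀ (n : ℕ) (X : Set S.Λ) (ℓ : S.Λ) (m : Fin K → ℕ), TL S n X ℓ m →
      S.lo ℓ ≤ S.hi ℓ ∧ (∀ x, m x ≠ 0 → S.lo ℓ ≤ x ∧ (x : ℕ) ≤ S.hi ℓ) ∧
      (∀ ℓ' ∈ X, S.lo ℓ ≤ S.lo ℓ' ∧ S.lo ℓ' ≤ S.hi ℓ' ∧ S.hi ℓ' ≤ S.hi ℓ) ∧
      (∀ ℓ₁ ∈ X, ∀ ℓ₂ ∈ X, (S.lo ℓ₁ ≤ S.lo ℓ₂ ∧ S.hi ℓ₂ ≤ S.hi ℓ₁) ∨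
        (S.lo ℓ₂ ≤ S.lo ℓ₁ ∧ S.hi ℓ₁ ≤ S.hi ℓ₂) ∨ S.hi ℓ₁ ≤ S.lo ℓ₂ ∨ S.hi ℓ₂ ≤ S.lo ℓ₁)) ∧
    (∀ (n : ℕ) (X : Set S.Λ) (ℓ ℓ' : S.Λ) (m : Fin K → ℕ), CL S n X ℓ ℓ' m → S.lo ℓ' ≤ S.hi ℓ' →
      S.lo ℓ ≤ S.lo ℓ' ∧ S.hi ℓ' ≤ S.hi ℓ ∧
      ∀ x : Fin K, m x ≠ 0 → (S.lo ℓ ≤ x ∧ (x : ℕ) ≤ S.lo ℓ') ∨ (S.hi ℓ' ≤ x ∧ (x : ℕ) ≤ S.hi ℓ)) ∧
    -- consequently: the pumps at the labels of one tree are stratified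
    (∀ (n : ℕ) (U : Set S.Λ) (ℓ₀ : S.Λ) (m : Fin K → ℕ) (Γ : Set (Fin K → ℕ)), TL S n U ℓ₀ m →
      (∀ p ∈ Γ, ∃ ℓ ∈ U, ∃ (a : ℕ) (Y : Set S.Λ), Y ⊆ U ∧ CL S a Y ℓ ℓ p) → Strat Γ)

/-- **T3a (reduction of trees).**  `F` does not depend on the submonoid and on the size. -/
def TargetT3a : Prop :=
  ∀ (K : ℕ) (S : Sys K) (U : Set S.Λ),
    ∃ F : S.Λ → Set (Fin K → ℕ), (∀ ℓ, (F ℓ).Finite) ∧
      (∀ ℓ, ∀ f ∈ F ℓ, ∃ (n : ℕ) (X : Set S.Λ), X ⊆ U ∧ TL S n X ℓ f) ∧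
      ∀ (H : AddSubmonoid (Fin K → ℕ)) (N : ℕ),
        (∀ a < N, ∀ (ℓ : S.Λ) (Y : Set S.Λ) (p : Fin K → ℕ), Y ⊆ U → CL S a Y ℓ ℓ p → p ∈ H) →
        ∀ n ≤ N, ∀ (ℓ : S.Λ) (X : Set S.Λ) (m : Fin K → ℕ), X ⊆ U → TL S n X ℓ m →
          ∃ f ∈ F ℓ, ∃ p ∈ H, m = f + p

/-- **T3b (walks in a finite digraph with weights).** -/
def TargetT3b : Prop :=
  ∀ (Λ M : Type) [AddCommMonoid M] [Finite Λ] (St : Λ → Λ → Set M), (∀ ℓ ℓ', (St ℓ ℓ').Finite) →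
    ∃ Γ : Set M, Γ.Finite ∧ (∀ p ∈ Γ, ∃ ℓ, Wk St ℓ ℓ p) ∧
      (∀ ℓ p, Wk St ℓ ℓ p → p ∈ AddSubmonoid.closure Γ) ∧
      ∀ ℓ ℓ', ∃ F : Set M, F.Finite ∧ (∀ f ∈ F, Wk St ℓ ℓ' f) ∧
        ∀ m, Wk St ℓ ℓ' m → ∃ f ∈ F, ∃ p ∈ AddSubmonoid.closure Γ, m = f + p

/-- **T3c (reduction).**  From T1, T3a, T3b. -/
def TargetT3c : Prop :=
  ∀ (K : ℕ) (S : Sys K) (U : Set S.Λ), ∃ Γ : Set (Fin K → ℕ), Red S U Γ

/-- **T4 (base trees with prescribed labels).**  From T1. -/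
def TargetT4 : Prop :=
  ∀ (K : ℕ) (S : Sys K) (U : Set S.Λ) (Γ : Set (Fin K → ℕ)), Red S U Γ →
    ∀ (X : Set S.Λ) (ℓ : S.Λ), X ⊆ U →
      ∃ B : Set (Fin K → ℕ), B.Finite ∧
        (∀ b ∈ B, ∃ (n : ℕ) (Y : Set S.Λ), X ⊆ Y ∧ Y ⊆ U ∧ TL S n Y ℓ b) ∧
        ∀ (n : ℕ) (Y : Set S.Λ) (m : Fin K → ℕ), X ⊆ Y → Y ⊆ U → TL S n Y ℓ m →
          ∃ b ∈ B, ∃ p ∈ AddSubmonoid.closure Γ, m = b + p

/-- **M1 = T5 (abstract tree theorem).**  From T1, T2, T3c, T4. The weights of the trees with a given root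
label form a finite union of stratified linear sets. -/
def TargetM1 : Prop :=
  ∀ (K : ℕ) (S : Sys K) (ℓ₀ : S.Λ),
    ∃ 𝒮 : Set (LinSet K), 𝒮.Finite ∧ (∀ X ∈ 𝒮, Strat (X.per : Set (Fin K → ℕ))) ∧
      ∀ n : Fin K → ℕ, Tr S ℓ₀ n ↔ ∃ X ∈ 𝒮, n ∈ X.toSet

/-- **M2a (yields and derivations).** -/
def TargetM2a : Prop :=
  ∀ (T : Type) (g : ContextFreeGrammar T) (β : List (Symbol T g.NT)) (w : List T),
    Yd g β w ↔ g.Derives β (w.map Symbol.terminal)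

/-- **M2 (grammar and automaton to a tree system).**  From M2a. -/
def TargetM2 : Prop :=
  ∀ (T : Type) (g : ContextFreeGrammar T) (K : ℕ) (A : Aut T K) (p q : A.Q),
    ∃ (S : Sys K) (ℓ₀ : S.Λ), ∀ n : Fin K → ℕ,
      Tr S ℓ₀ n ↔ ∃ w ∈ g.language, Rd A p w q n

/-- **M3 (automaton of the pattern).** -/
def TargetM3 : Prop :=
  ∀ (T : Type) (K : ℕ) (v : Fin K → List T), (∀ i, v i ≠ []) →
    ∃ (A : Aut T K) (p : A.Q) (F : Set A.Q), ∀ (w : List T) (n : Fin K → ℕ),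
      w = pat v n ↔ ∃ q ∈ F, Rd A p w q n

/-- **ST (structure theorem of Ginsburg and Spanier).**  From M1, M2, M3. -/
def TargetST : Prop :=
  ∀ (T : Type) (g : ContextFreeGrammar T) (K : ℕ) (v : Fin K → List T), (∀ i, v i ≠ []) →
    ∃ 𝒮 : Set (LinSet K), 𝒮.Finite ∧ (∀ X ∈ 𝒮, Strat (X.per : Set (Fin K → ℕ))) ∧
      ∀ n : Fin K → ℕ, pat v n ∈ g.language ↔ ∃ X ∈ 𝒮, n ∈ X.toSet

/-! ## The lamplighter group is co-context-free -/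

/-- **M4a (soundness of the grammar).** -/
def TargetM4a : Prop := ∀ (A : NTL) (w : List (Fin 3)), Yd gL [Symbol.nonterminal A] w → sem A w

/-- **M4b (completeness of the grammar).** -/
def TargetM4b : Prop := ∀ (A : NTL) (w : List (Fin 3)), sem A w → Yd gL [Symbol.nonterminal A] w

/-- **M4c (generation and evaluation).** -/
def TargetM4c : Prop :=
  Submonoid.closure (Set.range (![tL, tL⁻¹, aL] : Fin 3 → L)) = ⊤ ∧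
  ∀ w : List (Fin 3), ((w.map (![tL, tL⁻¹, aL] : Fin 3 → L)).prod : L) ≠ 1 ↔
    (disp w ≠ 0 ∨ ∃ z, cnt w z ≠ 0)

/-- **M4 (the lamplighter group is co-context-free).**  From M2a, M4a, M4b, M4c. -/
def TargetM4 : Prop :=
  ∃ (n : ℕ) (f : Fin n → L), Submonoid.closure (Set.range f) = ⊤ ∧
    Language.IsContextFree (setOf (fun w : List (Fin n) => (w.map f).prod ≠ 1) : Language (Fin n))

/-! ## Configurations -/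

/-- The value of a syllable with heights `h`. -/
def sylv (h : Fin 8 → ℕ) : L := (List.ofFn fun k => tL ^ (h k) * aL * tL⁻¹ ^ (h k)).prod

/-- **M5e (evaluation of a configuration).** -/
def TargetM5e : Prop :=
  ∀ h : Fin 52 → Fin 8 → ℕ, ev (conf h) = (List.ofFn fun i : Fin 52 => emb i (sylv (h i))).prod

/-- **M5l (value of a syllable).** -/
def TargetM5l : Prop :=
  (∀ (h : Fin 8 → ℕ), (sylv h : LW).pos = 0 ∧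
    ∀ z, (sylv h : LW).lamp z = lf (fun k => (h k : ℤ)) z) ∧
  (∀ h h' : Fin 8 → ℕ, sylv h = sylv h' ↔ ∀ z, lf (fun k => (h k : ℤ)) z = lf (fun k => (h' k : ℤ)) z) ∧
  (∀ h : Fin 8 → ℕ, sylv h = 1 ↔ ∀ z, lf (fun k => (h k : ℤ)) z = 0) ∧
  (∀ h : Fin 8 → ℕ, sylv h * sylv h = 1)

/-- **M5a (true configurations).**  From M5e, M5l. -/
def TargetM5a : Prop :=
  ∀ h : Fin 52 → Fin 8 → ℕ,
    (∀ i, ¬ IsMain i → ∀ z, lf (fun k => (h i k : ℤ)) z = 0) →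
    (∀ i, IsMain i → ∃ z, lf (fun k => (h i k : ℤ)) z ≠ 0) →
    ev (conf h) ≠ 1

/-- **M5b (false configurations, first kind).**  From M5e, M5l. -/
def TargetM5b : Prop :=
  ∀ (h : Fin 52 → Fin 8 → ℕ) (i j : Fin 52),
    ((i : ℕ) % 2 = 0 ∧ (i : ℕ) ≠ 0 ∧ ((i : ℕ) < 13 ∨ 39 < (i : ℕ))) →
    ((j : ℕ) % 2 = 0 ∧ (j : ℕ) ≠ 26 ∧ (13 < (j : ℕ) ∧ (j : ℕ) < 39)) →
    (∀ l, ¬ IsMain l → l ≠ i → l ≠ j → ∀ z, lf (fun k => (h l k : ℤ)) z = 0) →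
    (∀ z, lf (fun k => (h i k : ℤ)) z = lf (fun k => (h 0 k : ℤ)) z) →
    (∀ z, lf (fun k => (h j k : ℤ)) z = lf (fun k => (h 26 k : ℤ)) z) →
    (∀ z, lf (fun k => (h 13 k : ℤ)) z = lf (fun k => (h 39 k : ℤ)) z) →
    ev (conf h) = 1

/-- **M5c (false configurations, second kind).**  From M5e, M5l. -/
def TargetM5c : Prop :=
  ∀ (h : Fin 52 → Fin 8 → ℕ) (i j : Fin 52),
    ((i : ℕ) % 2 = 1 ∧ (i : ℕ) ≠ 13 ∧ (i : ℕ) < 26) →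
    ((j : ℕ) % 2 = 1 ∧ (j : ℕ) ≠ 39 ∧ 26 < (j : ℕ)) →
    (∀ l, ¬ IsMain l → l ≠ i → l ≠ j → ∀ z, lf (fun k => (h l k : ℤ)) z = 0) →
    (∀ z, lf (fun k => (h i k : ℤ)) z = lf (fun k => (h 13 k : ℤ)) z) →
    (∀ z, lf (fun k => (h j k : ℤ)) z = lf (fun k => (h 39 k : ℤ)) z) →
    (∀ z, lf (fun k => (h 0 k : ℤ)) z = lf (fun k => (h 26 k : ℤ)) z) →
    ev (conf h) = 1

/-! ## Linear algebra and combinatorics of the relations -/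

/-- The supports of the family are pairwise disjoint and noncrossing. -/
def NCfam {K m : ℕ} (ρ : Fin m → Fin K → ℚ) : Prop :=
  (∀ c c', c ≠ c' → ∀ x, ρ c x ≠ 0 → ρ c' x = 0) ∧
  (∀ c c', c ≠ c' → ∀ i j k l, i < j → j < k → k < l →
    ρ c i ≠ 0 → ρ c' j ≠ 0 → ρ c k ≠ 0 → ρ c' l ≠ 0 → False)

/-- **M6 (relations of a stratified set).** -/
def TargetM6 : Prop :=
  ∀ (K : ℕ) (E : Finset (Fin K → ℕ)), Strat (E : Set (Fin K → ℕ)) →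
    ∃ (m : ℕ) (ρ : Fin m → Fin K → ℚ), NCfam ρ ∧
      (∀ y : Fin K → ℚ,
        y ∈ Submodule.span ℚ ((fun (v : Fin K → ℕ) (x : Fin K) => (v x : ℚ)) '' (E : Set (Fin K → ℕ))) ↔
          ∀ c, ∑ x, ρ c x * y x = 0)

/-- The shifts of the syllables which satisfy the relations. -/
def Vsub {K m : ℕ} (ρ : Fin m → Fin K → ℚ) (q : Fin K → ℕ) : Submodule ℚ (ℕ → ℚ) where
  carrier := {σ | ∀ c, ∑ x, ρ c x * σ (q x) = 0}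
  zero_mem' := by intro c; simp
  add_mem' := by
    intro σ τ hσ hτ c
    have := hσ c
    have := hτ c
    simp only [Pi.add_apply, mul_add, Finset.sum_add_distrib]
    simp_all
  smul_mem' := by
    intro r σ hσ c
    have := hσ c
    simp only [Pi.smul_apply, smul_eq_mul, mul_left_comm _ r, ← Finset.mul_sum]
    simp_all

/-- Restriction to the interval `[p, p + n)`. -/
def res (p n : ℕ) : (ℕ → ℚ) →ₗ[ℚ] (Fin n → ℚ) where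
  toFun σ := fun i => σ (p + i)
  map_add' _ _ := rfl
  map_smul' _ _ := rfl

/-- The coefficient of the relation `c` at the syllable `i`. -/
def rc {K m : ℕ} (ρ : Fin m → Fin K → ℚ) (q : Fin K → ℕ) (c : Fin m) (i : ℕ) : ℚ :=
  ∑ x, if q x = i then ρ c x else 0

/-- The colour sums of all relations vanish. -/
def CS {K m : ℕ} (ρ : Fin m → Fin K → ℚ) (q : Fin K → ℕ) : Prop :=
  ∀ (c : Fin m) (b : ℕ), ∑ x, (if q x % 2 = b then ρ c x else 0) = 0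

/-- The dimension bound of Lemma A. -/
def DimOK {K m : ℕ} (ρ : Fin m → Fin K → ℚ) (q : Fin K → ℕ) : Prop :=
  ∀ p n : ℕ, 0 < n → n / 2 + 1 ≤ Module.finrank ℚ ((Vsub ρ q).map (res p n))

/-- merging the syllables `z - 1, z, z + 1` -/
def mu1 (z : ℕ) (i : ℕ) : ℕ := if i < z then i else if i = z then z - 1 else i - 2

/-- merging the syllables `z - 1, z` and the syllables `z + 1, z + 2` -/
def mu2 (z : ℕ) (i : ℕ) : ℕ :=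
  if i < z then i else if i = z then z - 1 else if i = z + 1 then z else i - 2

/-- **M7a (dichotomy).** -/
def TargetM7a : Prop :=
  ∀ (K m : ℕ) (ρ : Fin m → Fin K → ℚ) (q : Fin K → ℕ), Monotone q → NCfam ρ → CS ρ q →
    (∀ c i, rc ρ q c i = 0) ∨
    (∃ z, 1 ≤ z ∧ (∀ c, rc ρ q c z = 0) ∧ ∃ x, z < q x) ∨
    (∃ (D : Fin m) (z : ℕ), 1 ≤ z ∧ rc ρ q D z ≠ 0 ∧ rc ρ q D (z + 1) ≠ 0 ∧
      (∀ c, c ≠ D → rc ρ q c z = 0 ∧ rc ρ q c (z + 1) = 0) ∧ ∃ x, z + 1 < q x)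

/-- **M7b (removing a free syllable).** -/
def TargetM7b : Prop :=
  ∀ (K m : ℕ) (ρ : Fin m → Fin K → ℚ) (q : Fin K → ℕ) (z : ℕ), 1 ≤ z → (∀ c, rc ρ q c z = 0) →
    DimOK ρ (fun x => mu1 z (q x)) → DimOK ρ q

/-- **M7c (removing two private syllables and their relation).** -/
def TargetM7c : Prop :=
  ∀ (K m : ℕ) (ρ : Fin m → Fin K → ℚ) (q : Fin K → ℕ) (D : Fin m) (z : ℕ), 1 ≤ z → CS ρ q →
    rc ρ q D z ≠ 0 → rc ρ q D (z + 1) ≠ 0 →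
    (∀ c, c ≠ D → rc ρ q c z = 0 ∧ rc ρ q c (z + 1) = 0) →
    DimOK (fun c => if c = D then 0 else ρ c) (fun x => mu2 z (q x)) → DimOK ρ q

/-- **M7 (Lemma A).**  From M7a, M7b, M7c. -/
def TargetM7 : Prop :=
  ∀ (K m : ℕ) (ρ : Fin m → Fin K → ℚ) (q : Fin K → ℕ), Monotone q → NCfam ρ → CS ρ q → DimOK ρ q

/-- A pure break of a zero syllable: after the move the syllable has exactly the lamps at the
height of the class `c` and at this height plus `d`. -/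
def PB (c : Fin 3) (d : ℤ) (s : Fin 8 → ℤ) : Prop :=
  ∀ (h : Fin 3 → ℤ) (z : ℤ), lf (fun k => h (cls k) + s k) z =
    (if h c = z then 1 else 0) + (if h c + d = z then 1 else 0)

/-- **M8 (Lemma B').** -/
def TargetM8 : Prop :=
  ∀ (m : ℕ) (r : Fin m → Fin 8 → ℚ),
    (∀ c c', c ≠ c' → ∀ i j k l, i < j → j < k → k < l →
      r c i ≠ 0 → r c' j ≠ 0 → r c k ≠ 0 → r c' l ≠ 0 → False) →
    (∀ c c', c ≠ c' → ∀ i j k, i < j → j < k → r c i ≠ 0 → r c j ≠ 0 → r c k ≠ 0 →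
      r c' i ≠ 0 → r c' j ≠ 0 → r c' k ≠ 0 → False) →
    (∀ c, ∀ b : Fin 3, ∑ k, (if cls k = b then r c k else 0) = 0) →
    ∃ (b : Fin 3) (d : ℤ) (s : Fin 8 → ℤ), 0 < d ∧
      (∀ M : ℤ, 0 < M → PB b (M * d) (fun k => M * s k)) ∧
      ∀ c, ∑ k, r c k * (s k : ℚ) = 0

/-- **M9 (the ladder).** -/
def TargetM9 : Prop :=
  ∀ (K s : ℕ) (𝒮 : Set (LinSet K)), 𝒮.Finite → ∀ (b : Fin K → ℕ) (e : Fin s → Fin K → ℕ),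
    (∀ θ : Fin s → ℕ, ∃ S ∈ 𝒮, b + ∑ j, θ j • e j ∈ S.toSet) →
    ∃ S ∈ 𝒮, (∃ θ : Fin s → ℕ, b + ∑ j, θ j • e j ∈ S.toSet) ∧
      ∀ j : Fin s, ∃ μ : Fin s → ℕ, 0 < μ j ∧ (∀ l, j < l → μ l = 0) ∧
        ∃ c : (Fin K → ℕ) → ℕ, ∑ l, μ l • e l = ∑ v ∈ S.per, c v • v

/-- **SEL (selection).** -/
def TargetSEL : Prop :=
  ∀ V : Submodule ℚ (ℕ → ℚ),
    (∀ p ∈ ({1, 14, 27, 40} : Finset ℕ), 7 ≤ Module.finrank ℚ (V.map (res p 12))) →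
    (∃ i j : Fin 52,
      ((i : ℕ) % 2 = 0 ∧ (i : ℕ) ≠ 0 ∧ ((i : ℕ) < 13 ∨ 39 < (i : ℕ))) ∧
      ((j : ℕ) % 2 = 0 ∧ (j : ℕ) ≠ 26 ∧ (13 < (j : ℕ) ∧ (j : ℕ) < 39)) ∧
      (∃ σ ∈ V, σ 13 = σ 39 ∧ σ i - σ 0 ≠ 0 ∧ σ j - σ 26 = 0) ∧
      (∃ σ ∈ V, σ 13 = σ 39 ∧ σ i - σ 0 = 0 ∧ σ j - σ 26 ≠ 0)) ∨
    (∃ i j : Fin 52,
      ((i : ℕ) % 2 = 1 ∧ (i : ℕ) ≠ 13 ∧ (i : ℕ) < 26) ∧
      ((j : ℕ) % 2 = 1 ∧ (j : ℕ) ≠ 39 ∧ 26 < (j : ℕ)) ∧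
      (∃ σ ∈ V, σ 0 = σ 26 ∧ σ i - σ 13 ≠ 0 ∧ σ j - σ 39 = 0) ∧
      (∃ σ ∈ V, σ 0 = σ 26 ∧ σ i - σ 13 = 0 ∧ σ j - σ 39 ≠ 0))

/-! ## Interfaces for the assembly -/

/-- run vector of a direction -/
def dirR (d : Fin 52 → Fin 8 → ℕ) : Fin 1248 → ℕ := fun x =>
  if part x = 1 then 0 else d (syl x) (atm x)

/-- the rational span of a finite set of integer vectors -/
def QS {K : ℕ} (E : Finset (Fin K → ℕ)) : Submodule ℚ (Fin K → ℚ) :=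
  Submodule.span ℚ ((fun (v : Fin K → ℕ) (x : Fin K) => (v x : ℚ)) '' (E : Set (Fin K → ℕ)))

/-- the integer span of a finite set of integer vectors -/
def ZS {K : ℕ} (E : Finset (Fin K → ℕ)) : Set (Fin K → ℤ) :=
  {y | ∃ c : (Fin K → ℕ) → ℤ, ∀ x, y x = ∑ v ∈ E, c v * (v x : ℤ)}

/-- **IA (shifts).**  From M6, M7, SEL. -/
def TargetIA : Prop :=
  ∀ E : Finset (Fin 1248 → ℕ), Strat (E : Set (Fin 1248 → ℕ)) →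
    (∀ b < 2, (fun x => (dirR (dirC b) x : ℚ)) ∈ QS E) →
    ∃ M : ℤ, 0 < M ∧
      ((∃ i j : Fin 52,
        ((i : ℕ) % 2 = 0 ∧ (i : ℕ) ≠ 0 ∧ ((i : ℕ) < 13 ∨ 39 < (i : ℕ))) ∧
        ((j : ℕ) % 2 = 0 ∧ (j : ℕ) ≠ 26 ∧ (13 < (j : ℕ) ∧ (j : ℕ) < 39)) ∧
        ∀ τ₁ τ₂ : ℤ, ∃ σ : Fin 52 → ℤ, σ i - σ 0 = M * τ₁ ∧ σ j - σ 26 = M * τ₂ ∧ σ 13 = σ 39 ∧
          mv (fun l _ => σ l) ∈ ZS E) ∨
      (∃ i j : Fin 52,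
        ((i : ℕ) % 2 = 1 ∧ (i : ℕ) ≠ 13 ∧ (i : ℕ) < 26) ∧
        ((j : ℕ) % 2 = 1 ∧ (j : ℕ) ≠ 39 ∧ 26 < (j : ℕ)) ∧
        ∀ τ₁ τ₂ : ℤ, ∃ σ : Fin 52 → ℤ, σ i - σ 13 = M * τ₁ ∧ σ j - σ 39 = M * τ₂ ∧ σ 0 = σ 26 ∧
          mv (fun l _ => σ l) ∈ ZS E))

/-- **IB (breaks).**  From M6, M8. -/
def TargetIB : Prop :=
  ∀ E : Finset (Fin 1248 → ℕ), Strat (E : Set (Fin 1248 → ℕ)) → ∀ i : Fin 52,
    (∀ c : Fin 3, (fun x => (dirR (dirP i c) x : ℚ)) ∈ QS E) →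
    ∃ d : ℤ, 0 < d ∧ ∀ M : ℤ, 0 < M → ∃ (b : Fin 3) (s : Fin 8 → ℤ), PB b (M * d) s ∧
      mv (fun l k => if l = i then s k else 0) ∈ ZS E

/-- **FIN (the final assembly).** -/
def TargetFIN : Prop :=
  ¬ ∃ (n : ℕ) (f : Fin n → G), Submonoid.closure (Set.range f) = ⊤ ∧
    Language.IsContextFree (setOf (fun w : List (Fin n) => (w.map f).prod ≠ 1) : Language (Fin n))

end Pool.Agent.H5.CF
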