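import Pool.Agent.H5.CF.Targets

set_option autoImplicit false

/-!
# Auxiliary lemmas for the final assembly
-/

namespace Pool.Agent.H5.CF

open scoped BigOperators

/-! ### Words -/

lemma exists_word {n : ℕ} (f : Fin n → G) (hf : Submonoid.closure (Set.range f) = ⊤) (y : G) :
    ∃ w : List (Fin n), (w.map f).prod = y := by
  have hy : y ∈ Submonoid.closure (Set.range f) := by rw [hf]; trivial
  induction hy using Submonoid.closure_induction with
  | mem x hx =>
    obtain ⟨i, rfl⟩ := hx
    exact ⟨[i], by simp⟩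
  | one => exact ⟨[], rfl⟩
  | mul x y _ _ hx hy =>
    obtain ⟨u, hu⟩ := hx
    obtain ⟨v, hv⟩ := hy
    exact ⟨u ++ v, by rw [List.map_append, List.prod_append, hu, hv]⟩

lemma pat_prod {n K : ℕ} (f : Fin n → G) (v : Fin K → List (Fin n)) (m : Fin K → ℕ) :
    ((pat v m).map f).prod = (List.ofFn fun x => ((v x).map f).prod ^ m x).prod := by
  unfold pat
  rw [List.map_flatten, List.prod_flatten, List.map_map, List.map_ofFn]
  congr 1
  congr 1
  funext i
  simp only [Function.comp]
  induction m i with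
  | zero => simp
  | succ k ih =>
    rw [List.replicate_succ', List.flatten_append, List.map_append, List.prod_append, pow_succ, ih]
    simp

lemma tL_ne_one : tL ≠ 1 := by
  intro h
  have h1 := congrArg (fun x : L => (x : LW).pos) h
  simp [tL, LW.t] at h1

lemma aL_ne_one : aL ≠ 1 := by
  intro h
  have h1 := congrArg (fun x : L => (x : LW).lamp 0) h
  simp [aL, LW.a] at h1

lemma letL_ne_one (c : Fin 3) : letL c ≠ 1 := by
  fin_cases c
  · exact tL_ne_one
  · exact aL_ne_one
  · intro h
    exact tL_ne_one (inv_eq_one.mp h)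

lemma emb_injective (i : ℕ) : Function.Injective (emb i) := by
  unfold emb
  split_ifs
  · exact Monoid.Coprod.inl_injective
  · exact Monoid.Coprod.inr_injective

lemma gx_ne_one (x : Fin 1248) : gx x ≠ 1 := by
  intro h
  exact letL_ne_one (part x) (emb_injective _ (by rw [map_one]; exact h))

/-! ### Common multiples -/

lemma common_multiple {α : Type*} (s : Set α) (hs : s.Finite) (P : α → ℤ → Prop)
    (h : ∀ a ∈ s, ∃ d : ℤ, 0 < d ∧ ∀ M : ℤ, 0 < M → P a (M * d)) :
    ∃ D : ℤ, 0 < D ∧ ∀ a ∈ s, ∀ M : ℤ, 0 < M → P a (M * D) := by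
  induction s, hs using Set.Finite.induction_on with
  | empty => exact ⟨1, one_pos, by simp⟩
  | @insert a s _ _ ih =>
    obtain ⟨D, hD, hD'⟩ := ih (fun b hb => h b (Set.mem_insert_of_mem _ hb))
    obtain ⟨d, hd, hd'⟩ := h a (Set.mem_insert _ _)
    refine ⟨D * d, mul_pos hD hd, ?_⟩
    intro b hb M hM
    rcases Set.mem_insert_iff.mp hb with rfl | hb
    · rw [← mul_assoc]
      exact hd' _ (mul_pos hM hD)
    · rw [mul_comm D d, ← mul_assoc]
      exact hD' b hb _ (mul_pos hM hd)

/-! ### Configurations over the integers -/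

lemma syl_run (i : Fin 52) (k : Fin 8) (c : Fin 3) : syl (run i k c) = i := by
  unfold syl run; ext; simp only; omega
lemma atm_run (i : Fin 52) (k : Fin 8) (c : Fin 3) : atm (run i k c) = k := by
  unfold atm run; ext; simp only; omega
lemma part_run (i : Fin 52) (k : Fin 8) (c : Fin 3) : part (run i k c) = c := by
  unfold part run; ext; simp only; omega
lemma run_eta (x : Fin 1248) : run (syl x) (atm x) (part x) = x := by
  unfold syl atm part run; ext; simp only; omega

/-- the configuration with integer heights -/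
def cfz (h : Fin 52 → Fin 8 → ℤ) : Fin 1248 → ℤ := fun x =>
  if part x = 1 then 1 else h (syl x) (atm x)

lemma cfz_add_mv (h s : Fin 52 → Fin 8 → ℤ) : cfz h + mv s = cfz (h + s) := by
  funext x
  simp only [cfz, mv, Pi.add_apply]
  split_ifs <;> simp

lemma eq_conf_of_cfz (y : Fin 1248 → ℕ) (h : Fin 52 → Fin 8 → ℤ) (hy : (fun x => (y x : ℤ)) = cfz h) :
    ∃ h' : Fin 52 → Fin 8 → ℕ, y = conf h' ∧ ∀ i k, (h' i k : ℤ) = h i k := by
  refine ⟨fun i k => y (run i k 0), ?_, ?_⟩
  · funext x
    have hx := congrFun hy x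
    simp only [cfz] at hx
    unfold conf
    split_ifs with hp
    · rw [if_pos hp] at hx
      exact_mod_cast hx
    · rw [if_neg hp] at hx
      have hx' := congrFun hy (run (syl x) (atm x) 0)
      simp only [cfz, part_run, syl_run, atm_run] at hx'
      rw [if_neg (by decide)] at hx'
      rw [← hx'] at hx
      exact_mod_cast hx
  · intro i k
    have hx' := congrFun hy (run i k 0)
    simp only [cfz, part_run, syl_run, atm_run] at hx'
    rw [if_neg (by decide)] at hx'
    exact hx'

lemma conf_cast (h : Fin 52 → Fin 8 → ℕ) : (fun x => (conf h x : ℤ)) = cfz (fun i k => (h i k : ℤ)) := by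
  funext x
  simp only [conf, cfz]
  split_ifs <;> simp

/-! ### Lamps of a syllable -/

lemma sum_cls (g : Fin 3 → ZMod 2) (a b : ZMod 2) (h3 : a + b = 0) :
    (g 0 + g 1 + g 0 + a + g 0 + g 1 + g 0 + b : ZMod 2) = 0 := by
  generalize g 0 = A
  generalize g 1 = B
  revert A B a b
  decide

lemma sum_lf (g : Fin 8 → ℤ → ZMod 2) (H : Fin 3 → ℤ) :
    ∑ k, g k (H (cls k)) = g 0 (H 0) + g 1 (H 1) + g 2 (H 0) + g 3 (H 2) + g 4 (H 0) + g 5 (H 1) +
      g 6 (H 0) + g 7 (H 2) := by
  rw [Fin.sum_univ_eight]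
  rfl

lemma lf_zero (H : Fin 3 → ℤ) (z : ℤ) : lf (fun k => H (cls k)) z = 0 := by
  have h := sum_lf (fun _ y => if y = z then (1 : ZMod 2) else 0) H
  have h' : lf (fun k => H (cls k)) z = ∑ k, (fun (_ : Fin 8) (y : ℤ) => if y = z then (1 : ZMod 2) else 0) k (H (cls k)) := rfl
  rw [h', h]
  generalize (if H 0 = z then (1 : ZMod 2) else 0) = A
  generalize (if H 1 = z then (1 : ZMod 2) else 0) = B
  generalize (if H 2 = z then (1 : ZMod 2) else 0) = C
  revert A B C
  decide

/-- the break of a main syllable -/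
lemma PB_main (D : ℤ) : PB 2 D (fun k => if k = 7 then D else 0) := by
  intro H z
  have h := sum_lf (fun k y => if y + (if k = 7 then D else 0) = z then (1 : ZMod 2) else 0) H
  have h' : lf (fun k => H (cls k) + (if k = 7 then D else 0)) z =
    ∑ k, (fun (k : Fin 8) (y : ℤ) => if y + (if k = 7 then D else 0) = z then (1 : ZMod 2) else 0) k
      (H (cls k)) := rfl
  rw [h', h]
  have e0 : ¬ ((0 : Fin 8) = 7) := by decide
  have e1 : ¬ ((1 : Fin 8) = 7) := by decide
  have e2 : ¬ ((2 : Fin 8) = 7) := by decide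
  have e3 : ¬ ((3 : Fin 8) = 7) := by decide
  have e4 : ¬ ((4 : Fin 8) = 7) := by decide
  have e5 : ¬ ((5 : Fin 8) = 7) := by decide
  have e6 : ¬ ((6 : Fin 8) = 7) := by decide
  simp only [if_neg e0, if_neg e1, if_neg e2, if_neg e3, if_neg e4, if_neg e5, if_neg e6, if_true,
    add_zero]
  generalize (if H 0 = z then (1 : ZMod 2) else 0) = A
  generalize (if H 1 = z then (1 : ZMod 2) else 0) = B
  generalize (if H 2 = z then (1 : ZMod 2) else 0) = C
  generalize (if H 2 + D = z then (1 : ZMod 2) else 0) = C'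
  revert A B C C'
  decide

end Pool.Agent.H5.CF
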