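import Pool.Agent.H5.CF.Aux1

set_option autoImplicit false

/-!
# Slack lemma and spans of the ladder
-/

namespace Pool.Agent.H5.CF

open scoped BigOperators

variable {K : ℕ}

/-! ### The slack lemma -/

/-- If `g = ∑ c v • v` uses all the elements of `E`, then `x + n g + z` stays in the linear set for all
large `n`. -/
lemma slack (S : LinSet K) (E : Finset (Fin K → ℕ)) (hE : E ⊆ S.per) (c : (Fin K → ℕ) → ℕ)
    (hc : ∀ v ∈ E, 0 < c v) (x : Fin K → ℕ) (hx : x ∈ S.toSet) (z : Fin K → ℤ) (hz : z ∈ ZS E) :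
    ∃ N : ℕ, ∀ n ≥ N, ∃ y ∈ S.toSet, ∀ i, (y i : ℤ) = x i + n * ∑ v ∈ S.per, (c v : ℤ) * v i + z i := by
  obtain ⟨d, hd⟩ := hx
  obtain ⟨e, he⟩ := hz
  refine ⟨∑ v ∈ E, (e v).natAbs, ?_⟩
  intro n hn
  have hle : ∀ v ∈ E, (e v).natAbs ≤ n := fun v hv =>
    le_trans (Finset.single_le_sum (f := fun v => (e v).natAbs) (fun _ _ => Nat.zero_le _) hv) hn
  have hcoef : ∀ v ∈ S.per, 0 ≤ (d v : ℤ) + n * c v + (if v ∈ E then e v else 0) := by
    intro v _
    split_ifs with hv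
    · have h1 := hle v hv
      have h2 : (1 : ℤ) ≤ c v := by exact_mod_cast hc v hv
      have h3 : -(e v) ≤ n := by
        have : -(e v) ≤ ((e v).natAbs : ℤ) := by omega
        have h4 : ((e v).natAbs : ℤ) ≤ n := by exact_mod_cast h1
        linarith
      have h5 : (n : ℤ) ≤ n * c v := by nlinarith [Int.natCast_nonneg n]
      have h6 : (0 : ℤ) ≤ d v := Int.natCast_nonneg _
      linarith
    · positivity
  refine ⟨S.base + ∑ v ∈ S.per, ((d v : ℤ) + n * c v + (if v ∈ E then e v else 0)).toNat • v,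
    ⟨_, rfl⟩, ?_⟩
  intro i
  have hx' := congrFun hd i
  simp only [Pi.add_apply, Finset.sum_apply, Pi.smul_apply, smul_eq_mul] at hx' ⊢
  rw [hx']
  push_cast
  rw [he i]
  have h1 : ∑ v ∈ S.per, (((d v : ℤ) + n * c v + (if v ∈ E then e v else 0)).toNat : ℤ) * (v i : ℤ) =
      ∑ v ∈ S.per, ((d v : ℤ) * v i + n * (c v * v i) + (if v ∈ E then e v else 0) * v i) := by
    refine Finset.sum_congr rfl ?_
    intro v hv
    rw [Int.toNat_of_nonneg (hcoef v hv)]
    ring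
  rw [h1, Finset.sum_add_distrib, Finset.sum_add_distrib, ← Finset.mul_sum]
  have h2 : ∑ v ∈ S.per, (if v ∈ E then e v else 0) * (v i : ℤ) = ∑ v ∈ E, e v * (v i : ℤ) := by
    simp only [ite_mul, zero_mul]
    rw [← Finset.sum_filter]
    congr 1
    ext v
    simp only [Finset.mem_filter]
    exact ⟨fun h => h.2, fun h => ⟨hE h, h⟩⟩
  rw [h2]
  ring

/-! ### Spans -/

lemma QS_mono {E F : Finset (Fin K → ℕ)} (h : E ⊆ F) : QS E ≤ QS F :=
  Submodule.span_mono (Set.image_mono (by exact_mod_cast h))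

lemma mem_QS {E : Finset (Fin K → ℕ)} {v : Fin K → ℕ} (h : v ∈ E) : (fun x => (v x : ℚ)) ∈ QS E :=
  Submodule.subset_span ⟨v, by exact_mod_cast h, rfl⟩

lemma sum_mem_QS (per E : Finset (Fin K → ℕ)) (c : (Fin K → ℕ) → ℕ)
    (hc : ∀ v ∈ per, c v ≠ 0 → v ∈ E) :
    (fun x => ((∑ v ∈ per, c v • v) x : ℚ)) ∈ QS E := by
  have h : (fun x => ((∑ v ∈ per, c v • v) x : ℚ)) = ∑ v ∈ per, (c v : ℚ) • (fun x => (v x : ℚ)) := by
    funext x
    simp only [Finset.sum_apply, Pi.smul_apply, smul_eq_mul]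
    push_cast
    rfl
  rw [h]
  refine Submodule.sum_mem _ ?_
  intro v hv
  by_cases h0 : c v = 0
  · rw [h0]; simp
  · exact Submodule.smul_mem _ _ (mem_QS (hc v hv h0))

/-- The directions of the ladder up to `j₀` lie in the rational span of the used periods. -/
lemma ladder_span {s : ℕ} (per E : Finset (Fin K → ℕ)) (e : Fin s → Fin K → ℕ)
    (μ : Fin s → Fin s → ℕ) (c : Fin s → (Fin K → ℕ) → ℕ) (j₀ : ℕ)
    (hμ : ∀ j : Fin s, 0 < μ j j) (hμ0 : ∀ j l : Fin s, j < l → μ j l = 0)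
    (hsum : ∀ j : Fin s, ∑ l, μ j l • e l = ∑ v ∈ per, c j v • v)
    (hE : ∀ j : Fin s, (j : ℕ) ≤ j₀ → ∀ v ∈ per, c j v ≠ 0 → v ∈ E) :
    ∀ j : Fin s, (j : ℕ) ≤ j₀ → (fun x => (e j x : ℚ)) ∈ QS E := by
  suffices H : ∀ n : ℕ, ∀ j : Fin s, (j : ℕ) = n → (j : ℕ) ≤ j₀ → (fun x => (e j x : ℚ)) ∈ QS E from
    fun j hj => H j j rfl hj
  intro n
  induction n using Nat.strong_induction_on with
  | _ n ih =>
    intro j hjn hj
    have h1 := sum_mem_QS per E (c j) (hE j hj)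
    rw [← hsum j] at h1
    have h2 : (fun x => ((∑ l, μ j l • e l) x : ℚ)) =
        (μ j j : ℚ) • (fun x => (e j x : ℚ)) + ∑ l ∈ Finset.univ.erase j, (μ j l : ℚ) • (fun x => (e l x : ℚ)) := by
      funext x
      rw [← Finset.add_sum_erase Finset.univ _ (Finset.mem_univ j)]
      simp only [Pi.add_apply, Finset.sum_apply, Pi.smul_apply, smul_eq_mul]
      push_cast
      rfl
    rw [h2] at h1
    have h3 : ∑ l ∈ Finset.univ.erase j, (μ j l : ℚ) • (fun x => (e l x : ℚ)) ∈ QS E := by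
      refine Submodule.sum_mem _ ?_
      intro l hl
      have hlj : l ≠ j := (Finset.mem_erase.mp hl).1
      rcases lt_trichotomy l j with h | h | h
      · refine Submodule.smul_mem _ _ (ih l (by rw [← hjn]; exact h) l rfl ?_)
        exact le_trans (le_of_lt h) hj
      · exact absurd h hlj
      · rw [hμ0 j l h]; simp
    have h4 : (μ j j : ℚ) • (fun x => (e j x : ℚ)) ∈ QS E := by
      have := Submodule.sub_mem _ h1 h3
      rwa [add_sub_cancel_right] at this
    have h5 : (μ j j : ℚ) ≠ 0 := by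
      have := hμ j
      positivity
    exact (Submodule.smul_mem_iff _ h5).mp h4

end Pool.Agent.H5.CF
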