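import Mathlib

set_option autoImplicit false

/-!
# Free products of co-context-free groups: definitions

Blueprint: team-store `H5_CF_blueprint.md`.  The lamplighter group `L = Z₂ ≀ Z` is co-context-free,
`L * L` is not.
-/

namespace Pool.Agent.H5.CF

/-! ## Stratified linear sets -/

/-- A set of period vectors is *stratified*: no vector has three nonzero coordinates, and no two vectors
cross. -/
def Strat {K : ℕ} (E : Set (Fin K → ℕ)) : Prop :=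
  (∀ v ∈ E, ∀ x y z : Fin K, x < y → y < z → v x ≠ 0 → v y ≠ 0 → v z ≠ 0 → False) ∧
  (∀ v ∈ E, ∀ v' ∈ E, ∀ i j k l : Fin K, i < j → j < k → k < l →
      v i ≠ 0 → v k ≠ 0 → v' j ≠ 0 → v' l ≠ 0 → False)

/-- A linear set: base point and finite set of periods. -/
structure LinSet (K : ℕ) where
  /-- base point -/
  base : Fin K → ℕ
  /-- periods -/
  per : Finset (Fin K → ℕ)

/-- The monoid of the periods with multiplicities. -/
def LinSet.toSet {K : ℕ} (S : LinSet K) : Set (Fin K → ℕ) :=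
  {n | ∃ c : (Fin K → ℕ) → ℕ, n = S.base + ∑ e ∈ S.per, c e • e}

/-- The pattern word `v₁^{n₁} ⋯ v_K^{n_K}`. -/
def pat {T : Type} {K : ℕ} (v : Fin K → List T) (n : Fin K → ℕ) : List T :=
  (List.ofFn fun i => (List.replicate (n i) (v i)).flatten).flatten

/-! ## Abstract tree systems -/

/-- A finite system of labels: a tree has leaves labelled by elements of `leaf`, and inner nodes with
label `ℓ` and children labelled `ℓ₁`, `ℓ₂` where `R ℓ ℓ₁ ℓ₂`.  Each label has an interval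
`[lo, hi]`; the weights of the leaves live in the interval, and children subdivide the interval. -/
structure Sys (K : ℕ) where
  /-- labels -/
  Λ : Type
  fin : Finite Λ
  /-- labels which can be leaves -/
  leaf : Set Λ
  /-- rules -/
  R : Λ → Λ → Λ → Prop
  /-- weights of leaves -/
  wt : Λ → Fin K → ℕ
  /-- left end -/
  lo : Λ → ℕ
  /-- right end -/
  hi : Λ → ℕ
  leaf_le : ∀ ℓ ∈ leaf, lo ℓ ≤ hi ℓ
  wt_supp : ∀ ℓ ∈ leaf, ∀ x : Fin K, wt ℓ x ≠ 0 → lo ℓ ≤ x ∧ (x : ℕ) ≤ hi ℓ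
  R_lo : ∀ ℓ ℓ₁ ℓ₂, R ℓ ℓ₁ ℓ₂ → lo ℓ ≤ lo ℓ₁
  R_mid : ∀ ℓ ℓ₁ ℓ₂, R ℓ ℓ₁ ℓ₂ → hi ℓ₁ ≤ lo ℓ₂
  R_hi : ∀ ℓ ℓ₁ ℓ₂, R ℓ ℓ₁ ℓ₂ → hi ℓ₂ ≤ hi ℓ

/-- `Tr S ℓ m`: there is a tree with root label `ℓ` and total weight `m`. -/
inductive Tr {K : ℕ} (S : Sys K) : S.Λ → (Fin K → ℕ) → Prop
  | leaf (ℓ : S.Λ) : ℓ ∈ S.leaf → Tr S ℓ (S.wt ℓ)
  | node (ℓ ℓ₁ ℓ₂ : S.Λ) (m₁ m₂ : Fin K → ℕ) :
      S.R ℓ ℓ₁ ℓ₂ → Tr S ℓ₁ m₁ → Tr S ℓ₂ m₂ → Tr S ℓ (m₁ + m₂)

/-- `TL S n X ℓ m`: there is a tree with `n` nodes, with exact set of labels `X`, root label `ℓ` and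
total weight `m`. -/
inductive TL {K : ℕ} (S : Sys K) : ℕ → Set S.Λ → S.Λ → (Fin K → ℕ) → Prop
  | leaf (ℓ : S.Λ) : ℓ ∈ S.leaf → TL S 1 {ℓ} ℓ (S.wt ℓ)
  | node (ℓ ℓ₁ ℓ₂ : S.Λ) (a b : ℕ) (X Y : Set S.Λ) (m₁ m₂ : Fin K → ℕ) :
      S.R ℓ ℓ₁ ℓ₂ → TL S a X ℓ₁ m₁ → TL S b Y ℓ₂ m₂ →
        TL S (a + b + 1) (insert ℓ (X ∪ Y)) ℓ (m₁ + m₂)

/-- `CL S n X ℓ ℓ' m`: there is a context (a tree with one hole) with `n` nodes besides the hole, with
exact set of labels `X` (label `ℓ'` of the hole included), root label `ℓ` and total weight `m`. -/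
inductive CL {K : ℕ} (S : Sys K) : ℕ → Set S.Λ → S.Λ → S.Λ → (Fin K → ℕ) → Prop
  | hole (ℓ : S.Λ) : CL S 0 {ℓ} ℓ ℓ 0
  | left (ℓ ℓ₁ ℓ₂ ℓ' : S.Λ) (a b : ℕ) (X Y : Set S.Λ) (m₁ m₂ : Fin K → ℕ) :
      S.R ℓ ℓ₁ ℓ₂ → CL S a X ℓ₁ ℓ' m₁ → TL S b Y ℓ₂ m₂ →
        CL S (a + b + 1) (insert ℓ (X ∪ Y)) ℓ ℓ' (m₁ + m₂)
  | right (ℓ ℓ₁ ℓ₂ ℓ' : S.Λ) (a b : ℕ) (X Y : Set S.Λ) (m₁ m₂ : Fin K → ℕ) :
      S.R ℓ ℓ₁ ℓ₂ → TL S a X ℓ₁ m₁ → CL S b Y ℓ₂ ℓ' m₂ →
        CL S (a + b + 1) (insert ℓ (X ∪ Y)) ℓ ℓ' (m₁ + m₂)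

/-- Walks in a digraph with weights. -/
inductive Wk {Λ M : Type} [AddCommMonoid M] (St : Λ → Λ → Set M) : Λ → Λ → M → Prop
  | nil (ℓ : Λ) : Wk St ℓ ℓ 0
  | cons (ℓ ℓ' ℓ'' : Λ) (a m : M) : a ∈ St ℓ ℓ' → Wk St ℓ' ℓ'' m → Wk St ℓ ℓ'' (a + m)

/-- All trees and contexts with labels in `U` reduce to finitely many of them modulo the monoid generated
by the finite set `Γ` of weights of pumps with labels in `U`. -/
def Red {K : ℕ} (S : Sys K) (U : Set S.Λ) (Γ : Set (Fin K → ℕ)) : Prop :=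
  Γ.Finite ∧
  (∀ p ∈ Γ, ∃ ℓ ∈ U, ∃ (a : ℕ) (Y : Set S.Λ), Y ⊆ U ∧ CL S a Y ℓ ℓ p) ∧
  (∀ (ℓ : S.Λ) (a : ℕ) (Y : Set S.Λ) (p : Fin K → ℕ), Y ⊆ U → CL S a Y ℓ ℓ p →
    p ∈ AddSubmonoid.closure Γ) ∧
  (∀ ℓ : S.Λ, ∃ F : Set (Fin K → ℕ), F.Finite ∧
    (∀ f ∈ F, ∃ (n : ℕ) (X : Set S.Λ), X ⊆ U ∧ TL S n X ℓ f) ∧
    ∀ (n : ℕ) (X : Set S.Λ) (m : Fin K → ℕ), X ⊆ U → TL S n X ℓ m →
      ∃ f ∈ F, ∃ p ∈ AddSubmonoid.closure Γ, m = f + p) ∧
  (∀ ℓ ℓ' : S.Λ, ∃ F : Set (Fin K → ℕ), F.Finite ∧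
    (∀ f ∈ F, ∃ (n : ℕ) (X : Set S.Λ), X ⊆ U ∧ CL S n X ℓ ℓ' f) ∧
    ∀ (n : ℕ) (X : Set S.Λ) (m : Fin K → ℕ), X ⊆ U → CL S n X ℓ ℓ' m →
      ∃ f ∈ F, ∃ p ∈ AddSubmonoid.closure Γ, m = f + p)

/-! ## Yields of a context-free grammar -/

/-- `Yd g β w`: the string `β` of symbols of the grammar yields the word `w`. -/
inductive Yd {T : Type} (g : ContextFreeGrammar T) : List (Symbol T g.NT) → List T → Prop
  | nil : Yd g [] []
  | term (x : T) (β : List (Symbol T g.NT)) (w : List T) :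
      Yd g β w → Yd g (Symbol.terminal x :: β) (x :: w)
  | nonterm (r : ContextFreeRule T g.NT) (β : List (Symbol T g.NT)) (u w : List T) :
      r ∈ g.rules → Yd g r.output u → Yd g β w → Yd g (Symbol.nonterminal r.input :: β) (u ++ w)

/-! ## Automata with outputs -/

/-- A finite automaton with outputs, the blocks of the states being nondecreasing along a run. -/
structure Aut (T : Type) (K : ℕ) where
  /-- states -/
  Q : Type
  fin : Finite Q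
  /-- transitions -/
  step : Q → T → Q → Prop
  /-- output of a transition -/
  out : Q → T → Q → Fin K → ℕ
  /-- block of a state -/
  blk : Q → ℕ
  mono : ∀ p x q, step p x q → blk p ≤ blk q
  supp : ∀ p x q, step p x q → ∀ i : Fin K, out p x q i ≠ 0 → blk p ≤ i ∧ (i : ℕ) ≤ blk q

/-- `Rd A p w q n`: the automaton can read `w` from `p` to `q` with total output `n`. -/
inductive Rd {T : Type} {K : ℕ} (A : Aut T K) : A.Q → List T → A.Q → (Fin K → ℕ) → Prop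
  | nil (p : A.Q) : Rd A p [] p 0
  | cons (p : A.Q) (x : T) (q : A.Q) (w : List T) (r : A.Q) (n : Fin K → ℕ) :
      A.step p x q → Rd A q w r n → Rd A p (x :: w) r (A.out p x q + n)

/-! ## The lamplighter group -/

/-- The unrestricted wreath product `Z₂ Wr Z`. -/
@[ext]
structure LW where
  /-- the lamps -/
  lamp : ℤ → ZMod 2
  /-- the position of the cursor -/
  pos : ℤ

namespace LW

instance : Mul LW := ⟨fun u v => ⟨fun x => u.lamp x + v.lamp (x - u.pos), u.pos + v.pos⟩⟩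
instance : One LW := ⟨⟨0, 0⟩⟩
instance : Inv LW := ⟨fun u => ⟨fun x => -u.lamp (x + u.pos), -u.pos⟩⟩

@[simp] lemma mul_lamp (u v : LW) (x : ℤ) : (u * v).lamp x = u.lamp x + v.lamp (x - u.pos) := rfl
@[simp] lemma mul_pos' (u v : LW) : (u * v).pos = u.pos + v.pos := rfl
@[simp] lemma one_lamp (x : ℤ) : (1 : LW).lamp x = 0 := rfl
@[simp] lemma one_pos : (1 : LW).pos = 0 := rfl
@[simp] lemma inv_lamp (u : LW) (x : ℤ) : (u⁻¹).lamp x = -u.lamp (x + u.pos) := rfl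
@[simp] lemma inv_pos' (u : LW) : (u⁻¹).pos = -u.pos := rfl

instance : Group LW :=
  Group.ofLeftAxioms
    (by
      intro a b c
      ext x
      · simp only [mul_lamp, mul_pos']
        rw [add_assoc, sub_sub]
      · simp only [mul_pos', add_assoc])
    (by
      intro a
      ext x
      · simp
      · simp)
    (by
      intro a
      ext x
      · simp only [mul_lamp, inv_lamp, inv_pos', sub_neg_eq_add, one_lamp]
        exact neg_add_cancel _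
      · simp)

/-- the translation -/
def t : LW := ⟨0, 1⟩
/-- the lamp at the origin -/
def a : LW := ⟨fun x => if x = 0 then 1 else 0, 0⟩

end LW

/-- The lamplighter group `Z₂ ≀ Z`. -/
abbrev L : Type := ↥(Subgroup.closure ({LW.t, LW.a} : Set LW))

/-- the translation -/
def tL : L := ⟨LW.t, Subgroup.subset_closure (by simp)⟩
/-- the lamp at the origin -/
def aL : L := ⟨LW.a, Subgroup.subset_closure (by simp)⟩

/-- the free product -/
abbrev G : Type := Monoid.Coprod L L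

/-! ## Words over `t, t⁻¹, a` and the grammar of the lamplighter group -/

/-- displacement of the cursor (letters: `0 = t`, `1 = t⁻¹`, `2 = a`) -/
def disp : List (Fin 3) → ℤ
  | [] => 0
  | x :: w => (if x = 0 then 1 else if x = 1 then -1 else 0) + disp w

/-- the state (mod 2) of the lamp at `z` -/
def cnt : List (Fin 3) → ℤ → ZMod 2
  | [], _ => 0
  | x :: w, z => if x = 0 then cnt w (z - 1) else if x = 1 then cnt w (z + 1) else
      (if z = 0 then 1 else 0) + cnt w z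

/-- the nonterminals of the grammar of the lamplighter group -/
inductive NTL
  | S | E | P | M | Bp | Bm | Ze | Zo | Wp | Wm
  deriving DecidableEq

/-- The semantics of the nonterminals. -/
def sem : NTL → List (Fin 3) → Prop
  | .S, w => disp w ≠ 0 ∨ ∃ z, cnt w z ≠ 0
  | .E, w => disp w = 0
  | .P, w => 0 < disp w
  | .M, w => disp w < 0
  | .Bp, w => disp w = 0 ∧ ∀ u, u <+: w → 0 ≤ disp u
  | .Bm, w => disp w = 0 ∧ ∀ u, u <+: w → disp u ≤ 0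
  | .Ze, w => disp w = 0 ∧ cnt w 0 = 0
  | .Zo, w => disp w = 0 ∧ cnt w 0 ≠ 0
  | .Wp, w => disp w = 0 ∧ ∃ z, 0 ≤ z ∧ cnt w z ≠ 0
  | .Wm, w => disp w = 0 ∧ ∃ z, z ≤ 0 ∧ cnt w z ≠ 0

section grammar

/-- nonterminal symbol -/
abbrev nt (A : NTL) : Symbol (Fin 3) NTL := Symbol.nonterminal A
/-- terminal symbol -/
abbrev tm (x : Fin 3) : Symbol (Fin 3) NTL := Symbol.terminal x

/-- The rules of the grammar of the lamplighter group. -/
def rulesL : List (ContextFreeRule (Fin 3) NTL) :=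
  [ ⟨.S, [nt .P]⟩, ⟨.S, [nt .M]⟩, ⟨.S, [nt .Wp]⟩, ⟨.S, [nt .Wm]⟩,
    ⟨.E, []⟩, ⟨.E, [tm 2, nt .E]⟩, ⟨.E, [tm 0, nt .E, tm 1, nt .E]⟩, ⟨.E, [tm 1, nt .E, tm 0, nt .E]⟩,
    ⟨.P, [nt .E, tm 0, nt .E]⟩, ⟨.P, [nt .E, tm 0, nt .P]⟩,
    ⟨.M, [nt .E, tm 1, nt .E]⟩, ⟨.M, [nt .E, tm 1, nt .M]⟩,
    ⟨.Bp, []⟩, ⟨.Bp, [tm 2, nt .Bp]⟩, ⟨.Bp, [tm 0, nt .Bp, tm 1, nt .Bp]⟩,
    ⟨.Bm, []⟩, ⟨.Bm, [tm 2, nt .Bm]⟩, ⟨.Bm, [tm 1, nt .Bm, tm 0, nt .Bm]⟩,
    ⟨.Ze, []⟩, ⟨.Ze, [tm 2, nt .Zo]⟩, ⟨.Ze, [tm 0, nt .Bp, tm 1, nt .Ze]⟩,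
    ⟨.Ze, [tm 1, nt .Bm, tm 0, nt .Ze]⟩,
    ⟨.Zo, [tm 2, nt .Ze]⟩, ⟨.Zo, [tm 0, nt .Bp, tm 1, nt .Zo]⟩,
    ⟨.Zo, [tm 1, nt .Bm, tm 0, nt .Zo]⟩,
    ⟨.Wp, [nt .Zo]⟩, ⟨.Wp, [nt .Bm, tm 0, nt .Wp, tm 1, nt .Bm]⟩,
    ⟨.Wm, [nt .Zo]⟩, ⟨.Wm, [nt .Bp, tm 1, nt .Wm, tm 0, nt .Bp]⟩ ]

/-- The grammar of the lamplighter group. -/
def gL : ContextFreeGrammar (Fin 3) where
  NT := NTL
  initial := .S
  rules := rulesL.toFinset

end grammar

/-! ## Configurations: 52 syllables, 8 atoms each -/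

/-- the class of an atom: the word `1 2 1 3 1 2 1 3` (classes `0, 1, 2`). -/
def cls (k : Fin 8) : Fin 3 := ![0, 1, 0, 2, 0, 1, 0, 2] k

/-- the four main syllables (numbers 0, 13, 26, 39) -/
def IsMain (i : Fin 52) : Prop := (i : ℕ) % 13 = 0

instance (i : Fin 52) : Decidable (IsMain i) := by unfold IsMain; infer_instance

/-- Letters: `c = 0` is the translation, `c = 1` the lamp, `c = 2` the inverse translation. -/
def letL (c : Fin 3) : L := ![tL, aL, tL⁻¹] c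

/-- The factor of the syllable: even syllables live in the first factor, odd ones in the second. -/
def emb (i : ℕ) : L →* G := if i % 2 = 0 then Monoid.Coprod.inl else Monoid.Coprod.inr

/-- Numbering of the runs: syllable `i`, atom `k`, part `c` (up, lamp, down). -/
def run (i : Fin 52) (k : Fin 8) (c : Fin 3) : Fin 1248 :=
  ⟨24 * i + 3 * k + c, by omega⟩

/-- syllable of a run -/
def syl (x : Fin 1248) : Fin 52 := ⟨x / 24, by omega⟩
/-- atom of a run within its syllable -/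
def atm (x : Fin 1248) : Fin 8 := ⟨x / 3 % 8, by omega⟩
/-- part of a run -/
def part (x : Fin 1248) : Fin 3 := ⟨x % 3, by omega⟩

/-- The group element of a run. -/
def gx (x : Fin 1248) : G := emb (syl x) (letL (part x))

/-- the run vector of a configuration of heights -/
def conf (h : Fin 52 → Fin 8 → ℕ) : Fin 1248 → ℕ := fun x =>
  if part x = 1 then 1 else h (syl x) (atm x)

/-- The number (mod 2) of lamps at `z` in the syllable with heights `h`. -/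
def lf (h : Fin 8 → ℤ) (z : ℤ) : ZMod 2 := ∑ k, if h k = z then 1 else 0

/-- The value of the configuration in the free product. -/
noncomputable def ev (n : Fin 1248 → ℕ) : G := (List.ofFn fun x => gx x ^ n x).prod

/-! ## Directions -/

/-- The move of the runs which shifts the atoms of all syllables by `s`. -/
def mv (s : Fin 52 → Fin 8 → ℤ) : Fin 1248 → ℤ := fun x =>
  if part x = 1 then 0 else s (syl x) (atm x)

/-- all atoms of one colour (`b = 0`: even syllables, `b = 1`: odd syllables) -/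
def dirC (b : ℕ) : Fin 52 → Fin 8 → ℕ := fun i _ => if (i : ℕ) % 2 = b then 1 else 0

/-- the atoms of class `c` in the syllable `i` -/
def dirP (i : Fin 52) (c : Fin 3) : Fin 52 → Fin 8 → ℕ := fun j k =>
  if j = i ∧ cls k = c then 1 else 0

end Pool.Agent.H5.CF
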