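import Pool.Agent.H5.CF.Aux2

set_option autoImplicit false

/-!
# The final assembly
-/

namespace Pool.Agent.H5.CF

open scoped BigOperators

/-! ### The family of true configurations -/

/-- the directions on the level of classes -/
def ddc (j : Fin 158) (i : Fin 52) (c : Fin 3) : ℕ :=
  if (j : ℕ) = 0 then (if (i : ℕ) % 2 = 0 then 1 else 0)
  else if (j : ℕ) = 1 then (if (i : ℕ) % 2 = 1 then 1 else 0)
  else if (((j : ℕ) - 2) / 3 = i ∧ ((j : ℕ) - 2) % 3 = c) ∧ ¬ IsMain i then 1 else 0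

/-- the directions -/
def dd (j : Fin 158) : Fin 52 → Fin 8 → ℕ := fun i k => ddc j i (cls k)

lemma dd_C (b : ℕ) (hb : b < 2) : dd ⟨b, by omega⟩ = dirC b := by
  funext i k
  unfold dd ddc dirC
  interval_cases b <;> simp

lemma dd_P (i : Fin 52) (hi : ¬ IsMain i) (c : Fin 3) : dd ⟨2 + 3 * i + c, by omega⟩ = dirP i c := by
  funext l k
  unfold dd ddc dirP
  have h1 : ¬ (2 + 3 * (i : ℕ) + (c : ℕ) = 0) := by omega
  have h2 : ¬ (2 + 3 * (i : ℕ) + (c : ℕ) = 1) := by omega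
  simp only [h1, h2, if_false]
  have h3 : (2 + 3 * (i : ℕ) + (c : ℕ) - 2) / 3 = i := by omega
  have h4 : (2 + 3 * (i : ℕ) + (c : ℕ) - 2) % 3 = c := by omega
  rw [h3, h4]
  by_cases hl : l = i
  · subst hl
    by_cases hc : cls k = c
    · rw [if_pos ⟨⟨rfl, by rw [hc]⟩, hi⟩, if_pos ⟨rfl, hc⟩]
    · rw [if_neg, if_neg]
      · exact fun h => hc h.2
      · exact fun h => hc (Fin.ext h.1.2.symm)
  · rw [if_neg, if_neg]
    · exact fun h => hl h.1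
    · exact fun h => hl (Fin.ext h.1.1.symm)

/-- the heights on the level of classes -/
def Hc (L₁ : ℕ) (θ : Fin 158 → ℕ) (i : Fin 52) (c : Fin 3) : ℤ :=
  L₁ * ∑ j, (θ j : ℤ) * ddc j i c

/-- base of the family -/
def bas (D : ℕ) : Fin 1248 → ℕ := conf (fun i k => if IsMain i ∧ k = 7 then D else 0)

/-- directions of the family -/
def fe (L₁ : ℕ) (j : Fin 158) : Fin 1248 → ℕ := L₁ • dirR (dd j)

lemma fam_cast (D L₁ : ℕ) (θ : Fin 158 → ℕ) :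
    (fun x => ((bas D + ∑ j, θ j • fe L₁ j) x : ℤ)) =
      cfz (fun i k => Hc L₁ θ i (cls k) + if IsMain i ∧ k = 7 then (D : ℤ) else 0) := by
  funext x
  simp only [Pi.add_apply, Finset.sum_apply, Pi.smul_apply, smul_eq_mul, bas, conf, fe, dirR, cfz, Hc, dd]
  by_cases hp : part x = 1
  · simp [hp]
  · simp only [hp, if_false]
    push_cast
    have hs : ∑ j, (θ j : ℤ) * ((L₁ : ℤ) * (ddc j (syl x) (cls (atm x)) : ℤ)) =
        ∑ j, (L₁ : ℤ) * ((θ j : ℤ) * (ddc j (syl x) (cls (atm x)) : ℤ)) :=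
      Finset.sum_congr rfl (fun j _ => by ring)
    rw [Finset.mul_sum, hs, add_comm]

lemma truth (hM5a : TargetM5a) (D L₁ : ℕ) (hD : 0 < D) (θ : Fin 158 → ℕ) :
    ev (bas D + ∑ j, θ j • fe L₁ j) ≠ 1 := by
  obtain ⟨h', hy, hh⟩ := eq_conf_of_cfz _ _ (fam_cast D L₁ θ)
  rw [hy]
  refine hM5a h' ?_ ?_
  · intro i hi z
    have h1 : (fun k => (h' i k : ℤ)) = fun k => (Hc L₁ θ i) (cls k) := by
      funext k
      rw [hh i k, if_neg (fun h => hi h.1), add_zero]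
    rw [h1]
    exact lf_zero _ _
  · intro i hi
    refine ⟨Hc L₁ θ i 2, ?_⟩
    have h1 : (fun k => (h' i k : ℤ)) = fun k => (Hc L₁ θ i) (cls k) + (fun k => if k = 7 then (D : ℤ) else 0) k := by
      funext k
      rw [hh i k]
      simp [hi]
    rw [h1, PB_main (D : ℤ) (Hc L₁ θ i) (Hc L₁ θ i 2), if_pos rfl, if_neg (by omega)]
    decide

lemma ddc_le (j : Fin 158) (hj : (j : ℕ) ≤ 1) (i i' : Fin 52) (c c' : Fin 3)
    (h : (i : ℕ) % 2 = (i' : ℕ) % 2) : ddc j i c = ddc j i' c' := by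
  unfold ddc
  rw [h]
  split_ifs <;> first | rfl | omega

lemma Hc_diff (L₁ : ℕ) (θ θ' : Fin 158 → ℕ) (hθ : ∀ j : Fin 158, 1 < (j : ℕ) → θ' j = θ j)
    (i i' : Fin 52) (c c' : Fin 3) (h : (i : ℕ) % 2 = (i' : ℕ) % 2) :
    Hc L₁ θ' i c - Hc L₁ θ' i' c' = Hc L₁ θ i c - Hc L₁ θ i' c' := by
  unfold Hc
  rw [← mul_sub, ← mul_sub, ← Finset.sum_sub_distrib, ← Finset.sum_sub_distrib]
  congr 1
  refine Finset.sum_congr rfl ?_
  intro j _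
  by_cases hj : (j : ℕ) ≤ 1
  · rw [ddc_le j hj i i' c c' h]
    ring
  · rw [hθ j (by omega)]

lemma Hc_main (L₁ : ℕ) (θ : Fin 158 → ℕ) (i i' : Fin 52) (hi : IsMain i) (hi' : IsMain i') (c : Fin 3)
    (h : (i : ℕ) % 2 = (i' : ℕ) % 2) : Hc L₁ θ i c = Hc L₁ θ i' c := by
  unfold Hc
  refine congrArg (fun t : ℤ => (L₁ : ℤ) * t) (Finset.sum_congr rfl ?_)
  intro j _
  by_cases hj : (j : ℕ) ≤ 1
  · rw [ddc_le j hj i i' c c h]
  · have h1 : ddc j i c = 0 := by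
      unfold ddc
      rw [if_neg (by omega), if_neg (by omega), if_neg (fun h => h.2 hi)]
    have h2 : ddc j i' c = 0 := by
      unfold ddc
      rw [if_neg (by omega), if_neg (by omega), if_neg (fun h => h.2 hi')]
    rw [h1, h2]

/-! ### The kill -/

/-- heights after breaks and shifts -/
def hts (H : Fin 52 → Fin 3 → ℤ) (D : ℤ) (i j : Fin 52) (s₁ s₂ : Fin 8 → ℤ) (σ : Fin 52 → ℤ) :
    Fin 52 → Fin 8 → ℤ := fun l k =>
  H l (cls k) + (if IsMain l ∧ k = 7 then D else 0) + (if l = i then s₁ k else 0) +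
    (if l = j then s₂ k else 0) + σ l

lemma hts_zero (H : Fin 52 → Fin 3 → ℤ) (D : ℤ) (i j : Fin 52) (s₁ s₂ : Fin 8 → ℤ) (σ : Fin 52 → ℤ)
    (l : Fin 52) (hl : ¬ IsMain l) (hi : l ≠ i) (hj : l ≠ j) (z : ℤ) :
    lf (hts H D i j s₁ s₂ σ l) z = 0 := by
  have h1 : hts H D i j s₁ s₂ σ l = fun k => (fun c => H l c + σ l) (cls k) := by
    funext k
    simp [hts, hl, hi, hj]
  rw [h1]
  exact lf_zero (fun c => H l c + σ l) z

lemma hts_main (H : Fin 52 → Fin 3 → ℤ) (D : ℤ) (i j : Fin 52) (s₁ s₂ : Fin 8 → ℤ) (σ : Fin 52 → ℤ)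
    (l : Fin 52) (hl : IsMain l) (hi : l ≠ i) (hj : l ≠ j) (z : ℤ) :
    lf (hts H D i j s₁ s₂ σ l) z = (if H l 2 + σ l = z then 1 else 0) +
      (if H l 2 + σ l + D = z then 1 else 0) := by
  have h1 : hts H D i j s₁ s₂ σ l = fun k => (fun c => H l c + σ l) (cls k) +
      (fun k : Fin 8 => if k = 7 then D else 0) k := by
    funext k
    simp only [hts, hl, hi, hj, true_and, if_false]
    ring
  rw [h1, PB_main D (fun c => H l c + σ l) z]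

lemma hts_i (H : Fin 52 → Fin 3 → ℤ) (D : ℤ) (i j : Fin 52) (s₁ s₂ : Fin 8 → ℤ) (σ : Fin 52 → ℤ)
    (hi : ¬ IsMain i) (hj : i ≠ j) (b : Fin 3) (hb : PB b D s₁) (z : ℤ) :
    lf (hts H D i j s₁ s₂ σ i) z = (if H i b + σ i = z then 1 else 0) +
      (if H i b + σ i + D = z then 1 else 0) := by
  have h1 : hts H D i j s₁ s₂ σ i = fun k => (fun c => H i c + σ i) (cls k) + s₁ k := by
    funext k
    simp only [hts, hi, hj, false_and, if_false, if_true]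
    ring
  rw [h1, hb (fun c => H i c + σ i) z]

lemma hts_j (H : Fin 52 → Fin 3 → ℤ) (D : ℤ) (i j : Fin 52) (s₁ s₂ : Fin 8 → ℤ) (σ : Fin 52 → ℤ)
    (hi : ¬ IsMain j) (hj : j ≠ i) (b : Fin 3) (hb : PB b D s₂) (z : ℤ) :
    lf (hts H D i j s₁ s₂ σ j) z = (if H j b + σ j = z then 1 else 0) +
      (if H j b + σ j + D = z then 1 else 0) := by
  have h1 : hts H D i j s₁ s₂ σ j = fun k => (fun c => H j c + σ j) (cls k) + s₂ k := by
    funext k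
    simp only [hts, hi, hj, false_and, if_false, if_true]
    ring
  rw [h1, hb (fun c => H j c + σ j) z]

lemma killA (hM5b : TargetM5b) (H : Fin 52 → Fin 3 → ℤ) (D : ℤ) (i j : Fin 52)
    (hi : (i : ℕ) % 2 = 0 ∧ (i : ℕ) ≠ 0 ∧ ((i : ℕ) < 13 ∨ 39 < (i : ℕ)))
    (hj : (j : ℕ) % 2 = 0 ∧ (j : ℕ) ≠ 26 ∧ (13 < (j : ℕ) ∧ (j : ℕ) < 39))
    (b₁ b₂ : Fin 3) (s₁ s₂ : Fin 8 → ℤ) (hb₁ : PB b₁ D s₁) (hb₂ : PB b₂ D s₂) (σ : Fin 52 → ℤ)
    (h1 : H i b₁ + σ i = H 0 2 + σ 0) (h2 : H j b₂ + σ j = H 26 2 + σ 26)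
    (h3 : H 13 2 + σ 13 = H 39 2 + σ 39) (y : Fin 1248 → ℕ)
    (hy : (fun x => (y x : ℤ)) = cfz (hts H D i j s₁ s₂ σ)) : ev y = 1 := by
  obtain ⟨h', hy', hh⟩ := eq_conf_of_cfz _ _ hy
  have hh' : ∀ l, (fun k => (h' l k : ℤ)) = hts H D i j s₁ s₂ σ l := fun l => by
    funext k; exact hh l k
  have hmi : ¬ IsMain i := by unfold IsMain; omega
  have hmj : ¬ IsMain j := by unfold IsMain; omega
  have hij : i ≠ j := by intro h; rw [h] at hi; omega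
  have n0i : (0 : Fin 52) ≠ i := by intro h; rw [← h] at hi; simp at hi
  have n0j : (0 : Fin 52) ≠ j := by intro h; rw [← h] at hj; simp at hj
  have n13i : (13 : Fin 52) ≠ i := by intro h; rw [← h] at hi; simp at hi
  have n13j : (13 : Fin 52) ≠ j := by intro h; rw [← h] at hj; simp at hj
  have n26i : (26 : Fin 52) ≠ i := by intro h; rw [← h] at hi; simp at hi
  have n26j : (26 : Fin 52) ≠ j := by intro h; rw [← h] at hj; simp at hj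
  have n39i : (39 : Fin 52) ≠ i := by intro h; rw [← h] at hi; simp at hi
  have n39j : (39 : Fin 52) ≠ j := by intro h; rw [← h] at hj; simp at hj
  have m0 : IsMain 0 := by decide
  have m13 : IsMain 13 := by decide
  have m26 : IsMain 26 := by decide
  have m39 : IsMain 39 := by decide
  rw [hy']
  refine hM5b h' i j hi hj ?_ ?_ ?_ ?_
  · intro l hl hli hlj z
    rw [hh' l]
    exact hts_zero H D i j s₁ s₂ σ l hl hli hlj z
  · intro z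
    rw [hh' i, hh' 0, hts_i H D i j s₁ s₂ σ hmi hij b₁ hb₁ z,
      hts_main H D i j s₁ s₂ σ 0 m0 n0i n0j z, h1]
  · intro z
    rw [hh' j, hh' 26, hts_j H D i j s₁ s₂ σ hmj hij.symm b₂ hb₂ z,
      hts_main H D i j s₁ s₂ σ 26 m26 n26i n26j z, h2]
  · intro z
    rw [hh' 13, hh' 39, hts_main H D i j s₁ s₂ σ 13 m13 n13i n13j z,
      hts_main H D i j s₁ s₂ σ 39 m39 n39i n39j z, h3]

lemma killB (hM5c : TargetM5c) (H : Fin 52 → Fin 3 → ℤ) (D : ℤ) (i j : Fin 52)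
    (hi : (i : ℕ) % 2 = 1 ∧ (i : ℕ) ≠ 13 ∧ (i : ℕ) < 26)
    (hj : (j : ℕ) % 2 = 1 ∧ (j : ℕ) ≠ 39 ∧ 26 < (j : ℕ))
    (b₁ b₂ : Fin 3) (s₁ s₂ : Fin 8 → ℤ) (hb₁ : PB b₁ D s₁) (hb₂ : PB b₂ D s₂) (σ : Fin 52 → ℤ)
    (h1 : H i b₁ + σ i = H 13 2 + σ 13) (h2 : H j b₂ + σ j = H 39 2 + σ 39)
    (h3 : H 0 2 + σ 0 = H 26 2 + σ 26) (y : Fin 1248 → ℕ)
    (hy : (fun x => (y x : ℤ)) = cfz (hts H D i j s₁ s₂ σ)) : ev y = 1 := by
  obtain ⟨h', hy', hh⟩ := eq_conf_of_cfz _ _ hy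
  have hh' : ∀ l, (fun k => (h' l k : ℤ)) = hts H D i j s₁ s₂ σ l := fun l => by
    funext k; exact hh l k
  have hmi : ¬ IsMain i := by unfold IsMain; omega
  have hmj : ¬ IsMain j := by unfold IsMain; omega
  have hij : i ≠ j := by intro h; rw [h] at hi; omega
  have n0i : (0 : Fin 52) ≠ i := by intro h; rw [← h] at hi; simp at hi
  have n0j : (0 : Fin 52) ≠ j := by intro h; rw [← h] at hj; simp at hj
  have n13i : (13 : Fin 52) ≠ i := by intro h; rw [← h] at hi; simp at hi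
  have n13j : (13 : Fin 52) ≠ j := by intro h; rw [← h] at hj; simp at hj
  have n26i : (26 : Fin 52) ≠ i := by intro h; rw [← h] at hi; simp at hi
  have n26j : (26 : Fin 52) ≠ j := by intro h; rw [← h] at hj; simp at hj
  have n39i : (39 : Fin 52) ≠ i := by intro h; rw [← h] at hi; simp at hi
  have n39j : (39 : Fin 52) ≠ j := by intro h; rw [← h] at hj; simp at hj
  have m0 : IsMain 0 := by decide
  have m13 : IsMain 13 := by decide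
  have m26 : IsMain 26 := by decide
  have m39 : IsMain 39 := by decide
  rw [hy']
  refine hM5c h' i j hi hj ?_ ?_ ?_ ?_
  · intro l hl hli hlj z
    rw [hh' l]
    exact hts_zero H D i j s₁ s₂ σ l hl hli hlj z
  · intro z
    rw [hh' i, hh' 13, hts_i H D i j s₁ s₂ σ hmi hij b₁ hb₁ z,
      hts_main H D i j s₁ s₂ σ 13 m13 n13i n13j z, h1]
  · intro z
    rw [hh' j, hh' 39, hts_j H D i j s₁ s₂ σ hmj hij.symm b₂ hb₂ z,
      hts_main H D i j s₁ s₂ σ 39 m39 n39i n39j z, h2]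
  · intro z
    rw [hh' 0, hh' 26, hts_main H D i j s₁ s₂ σ 0 m0 n0i n0j z,
      hts_main H D i j s₁ s₂ σ 26 m26 n26i n26j z, h3]

/-! ### The two kinds of shifts -/

/-- shifts of the first kind -/
def TA (E : Finset (Fin 1248 → ℕ)) (M : ℤ) : Prop :=
  ∃ i j : Fin 52,
    ((i : ℕ) % 2 = 0 ∧ (i : ℕ) ≠ 0 ∧ ((i : ℕ) < 13 ∨ 39 < (i : ℕ))) ∧
    ((j : ℕ) % 2 = 0 ∧ (j : ℕ) ≠ 26 ∧ (13 < (j : ℕ) ∧ (j : ℕ) < 39)) ∧
    ∀ τ₁ τ₂ : ℤ, ∃ σ : Fin 52 → ℤ, σ i - σ 0 = M * τ₁ ∧ σ j - σ 26 = M * τ₂ ∧ σ 13 = σ 39 ∧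
      mv (fun l _ => σ l) ∈ ZS E

/-- shifts of the second kind -/
def TB (E : Finset (Fin 1248 → ℕ)) (M : ℤ) : Prop :=
  ∃ i j : Fin 52,
    ((i : ℕ) % 2 = 1 ∧ (i : ℕ) ≠ 13 ∧ (i : ℕ) < 26) ∧
    ((j : ℕ) % 2 = 1 ∧ (j : ℕ) ≠ 39 ∧ 26 < (j : ℕ)) ∧
    ∀ τ₁ τ₂ : ℤ, ∃ σ : Fin 52 → ℤ, σ i - σ 13 = M * τ₁ ∧ σ j - σ 39 = M * τ₂ ∧ σ 0 = σ 26 ∧
      mv (fun l _ => σ l) ∈ ZS E

lemma TA_mul (E : Finset (Fin 1248 → ℕ)) (M M' : ℤ) (h : TA E M) : TA E (M' * M) := by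
  obtain ⟨i, j, hi, hj, h⟩ := h
  refine ⟨i, j, hi, hj, ?_⟩
  intro τ₁ τ₂
  obtain ⟨σ, h1, h2, h3, h4⟩ := h (M' * τ₁) (M' * τ₂)
  exact ⟨σ, by rw [h1]; ring, by rw [h2]; ring, h3, h4⟩

lemma TB_mul (E : Finset (Fin 1248 → ℕ)) (M M' : ℤ) (h : TB E M) : TB E (M' * M) := by
  obtain ⟨i, j, hi, hj, h⟩ := h
  refine ⟨i, j, hi, hj, ?_⟩
  intro τ₁ τ₂
  obtain ⟨σ, h1, h2, h3, h4⟩ := h (M' * τ₁) (M' * τ₂)
  exact ⟨σ, by rw [h1]; ring, by rw [h2]; ring, h3, h4⟩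

lemma finite_subsets {K : ℕ} (𝒮 : Set (LinSet K)) (h : 𝒮.Finite) :
    {E : Finset (Fin K → ℕ) | ∃ X ∈ 𝒮, E ⊆ X.per}.Finite := by
  have : {E : Finset (Fin K → ℕ) | ∃ X ∈ 𝒮, E ⊆ X.per} = ⋃ X ∈ 𝒮, (X.per.powerset : Set (Finset (Fin K → ℕ))) := by
    ext E
    simp
  rw [this]
  exact h.biUnion (fun X _ => Finset.finite_toSet _)

lemma ZS_add {K : ℕ} (E : Finset (Fin K → ℕ)) (y z : Fin K → ℤ) (hy : y ∈ ZS E) (hz : z ∈ ZS E) :
    y + z ∈ ZS E := by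
  obtain ⟨c, hc⟩ := hy
  obtain ⟨d, hd⟩ := hz
  refine ⟨fun v => c v + d v, ?_⟩
  intro x
  rw [Pi.add_apply, hc x, hd x, ← Finset.sum_add_distrib]
  exact Finset.sum_congr rfl (fun v _ => by ring)

/-- The final assembly. -/
theorem FIN_of (hST : TargetST) (hIA : TargetIA) (hIB : TargetIB) (hM9 : TargetM9) (hM5a : TargetM5a)
    (hM5b : TargetM5b) (hM5c : TargetM5c) : TargetFIN := by
  classical
  rintro ⟨n, f, hf, g, hg⟩
  choose wd hwd using exists_word f hf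
  have hv : ∀ x : Fin 1248, wd (gx x) ≠ [] := by
    intro x h
    apply gx_ne_one x
    rw [← hwd (gx x), h]
    rfl
  obtain ⟨𝒮, hfin, hstrat, h𝒮⟩ := hST (Fin n) g 1248 (fun x => wd (gx x)) hv
  have hev : ∀ m : Fin 1248 → ℕ, ev m ≠ 1 ↔ ∃ X ∈ 𝒮, m ∈ X.toSet := by
    intro m
    rw [← h𝒮 m, hg]
    have h1 : ((pat (fun x => wd (gx x)) m).map f).prod = ev m := by
      rw [pat_prod]
      unfold ev
      simp only [hwd]
    show ev m ≠ 1 ↔ ((pat (fun x => wd (gx x)) m).map f).prod ≠ 1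
    rw [h1]
  -- the common multiples
  obtain ⟨D, hD, hDP⟩ := common_multiple
    ({E : Finset (Fin 1248 → ℕ) | ∃ X ∈ 𝒮, E ⊆ X.per} ×ˢ (Set.univ : Set (Fin 52)))
    ((finite_subsets 𝒮 hfin).prod Set.finite_univ)
    (fun a D => (∀ c : Fin 3, (fun x => (dirR (dirP a.2 c) x : ℚ)) ∈ QS a.1) →
      ∃ (b : Fin 3) (s : Fin 8 → ℤ), PB b D s ∧ mv (fun l k => if l = a.2 then s k else 0) ∈ ZS a.1)
    (by
      rintro ⟨E, i⟩ ⟨⟨X, hX, hEX⟩, -⟩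
      have hE : Strat (E : Set (Fin 1248 → ℕ)) :=
        ⟨fun v hv => (hstrat X hX).1 v (hEX hv),
          fun v hv v' hv' => (hstrat X hX).2 v (hEX hv) v' (hEX hv')⟩
      by_cases hc : ∀ c : Fin 3, (fun x => (dirR (dirP i c) x : ℚ)) ∈ QS E
      · obtain ⟨d, hd, h⟩ := hIB E hE i hc
        exact ⟨d, hd, fun M hM _ => h M hM⟩
      · exact ⟨1, one_pos, fun M hM h => absurd h hc⟩)
  obtain ⟨L₁, hL₁, hLP⟩ := common_multiple
    {E : Finset (Fin 1248 → ℕ) | ∃ X ∈ 𝒮, E ⊆ X.per} (finite_subsets 𝒮 hfin)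
    (fun E M => (∀ b < 2, (fun x => (dirR (dirC b) x : ℚ)) ∈ QS E) → TA E M ∨ TB E M)
    (by
      rintro E ⟨X, hX, hEX⟩
      have hE : Strat (E : Set (Fin 1248 → ℕ)) :=
        ⟨fun v hv => (hstrat X hX).1 v (hEX hv),
          fun v hv v' hv' => (hstrat X hX).2 v (hEX hv) v' (hEX hv')⟩
      by_cases hc : ∀ b < 2, (fun x => (dirR (dirC b) x : ℚ)) ∈ QS E
      · obtain ⟨M, hM, h⟩ := hIA E hE hc
        refine ⟨M, hM, fun M' hM' _ => ?_⟩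
        rcases h with h | h
        · exact Or.inl (TA_mul E M M' h)
        · exact Or.inr (TB_mul E M M' h)
      · exact ⟨1, one_pos, fun M hM h => absurd h hc⟩)
  replace hDP := fun a ha => hDP a ha 1 one_pos
  replace hLP := fun a ha => hLP a ha 1 one_pos
  simp only [one_mul] at hDP hLP
  obtain ⟨D, rfl⟩ := Int.eq_ofNat_of_zero_le hD.le
  obtain ⟨L₁, rfl⟩ := Int.eq_ofNat_of_zero_le hL₁.le
  have hDpos : 0 < D := by exact_mod_cast hD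
  have hLpos : 0 < L₁ := by exact_mod_cast hL₁
  -- the ladder
  obtain ⟨S, hS, ⟨θ₀, hθ₀⟩, hlad⟩ := hM9 1248 158 𝒮 hfin (bas D) (fe L₁)
    (fun θ => (hev _).mp (truth hM5a D L₁ hDpos θ))
  choose μ hμ hμ0 c hc using hlad
  set Eall : Finset (Fin 1248 → ℕ) := S.per.filter (fun v => ∃ j, c j v ≠ 0) with hEall
  set Etop : Finset (Fin 1248 → ℕ) := S.per.filter (fun v => c 0 v ≠ 0 ∨ c 1 v ≠ 0) with hEtop
  have hEall_sub : Eall ⊆ S.per := Finset.filter_subset _ _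
  have hEtop_sub : Etop ⊆ S.per := Finset.filter_subset _ _
  have hLQ : (L₁ : ℚ) ≠ 0 := by positivity
  have hspan : ∀ (E : Finset (Fin 1248 → ℕ)) (j : Fin 158), (fun x => (fe L₁ j x : ℚ)) ∈ QS E →
      (fun x => (dirR (dd j) x : ℚ)) ∈ QS E := by
    intro E j h
    have h1 : (fun x => (fe L₁ j x : ℚ)) = (L₁ : ℚ) • (fun x => (dirR (dd j) x : ℚ)) := by
      funext x
      simp [fe]
    rw [h1] at h
    exact (Submodule.smul_mem_iff _ hLQ).mp h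
  have htop : ∀ b < 2, (fun x => (dirR (dirC b) x : ℚ)) ∈ QS Etop := by
    intro b hb
    rw [← dd_C b hb]
    refine hspan _ _ (ladder_span S.per Etop (fe L₁) μ c 1 hμ hμ0 hc ?_ _ (by simp; omega))
    intro j hj v hv hcv
    rw [hEtop, Finset.mem_filter]
    refine ⟨hv, ?_⟩
    have : j = 0 ∨ j = 1 := by
      rcases Nat.le_one_iff_eq_zero_or_eq_one.mp hj with h | h
      · exact Or.inl (Fin.ext h)
      · exact Or.inr (Fin.ext h)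
    rcases this with rfl | rfl
    · exact Or.inl hcv
    · exact Or.inr hcv
  have hall : ∀ i : Fin 52, ¬ IsMain i → ∀ b : Fin 3, (fun x => (dirR (dirP i b) x : ℚ)) ∈ QS Eall := by
    intro i hi b
    rw [← dd_P i hi b]
    refine hspan _ _ (ladder_span S.per Eall (fe L₁) μ c 158 hμ hμ0 hc ?_ _ (by simp; omega))
    intro j hj v hv hcv
    rw [hEall, Finset.mem_filter]
    exact ⟨hv, j, hcv⟩
  -- moving in `S`
  have hmove : ∀ z₂ ∈ ZS Eall, ∃ θ₁ : Fin 158 → ℕ, ∀ z₁ ∈ ZS Etop, ∃ θ₃ : Fin 158 → ℕ,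
      (∀ j : Fin 158, 1 < (j : ℕ) → θ₃ j = θ₁ j) ∧ ∃ y ∈ S.toSet,
        ∀ x, (y x : ℤ) = ((bas D + ∑ j, θ₃ j • fe L₁ j) x : ℕ) + z₂ x + z₁ x := by
    intro z₂ hz₂
    obtain ⟨N, hN⟩ := slack S Eall hEall_sub (fun v => ∑ j, c j v) (by
      intro v hv
      rw [hEall, Finset.mem_filter] at hv
      obtain ⟨j, hj⟩ := hv.2
      exact lt_of_lt_of_le (Nat.pos_of_ne_zero hj)
        (Finset.single_le_sum (f := fun j => c j v) (fun _ _ => Nat.zero_le _) (Finset.mem_univ j)))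
      _ hθ₀ z₂ hz₂
    obtain ⟨y₂, hy₂, hy₂'⟩ := hN N le_rfl
    refine ⟨fun j => θ₀ j + N * ∑ l, μ l j, ?_⟩
    intro z₁ hz₁
    obtain ⟨N', hN'⟩ := slack S Etop hEtop_sub (fun v => c 0 v + c 1 v) (by
      intro v hv
      rw [hEtop, Finset.mem_filter] at hv
      rcases hv.2 with h | h
      · have := Nat.pos_of_ne_zero h; omega
      · have := Nat.pos_of_ne_zero h; omega) y₂ hy₂ z₁ hz₁
    obtain ⟨y₃, hy₃, hy₃'⟩ := hN' N' le_rfl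
    refine ⟨fun j => θ₀ j + N * ∑ l, μ l j + N' * (μ 0 j + μ 1 j), ?_, y₃, hy₃, ?_⟩
    · intro j hj
      have h0 : μ 0 j = 0 := hμ0 0 j (by rw [Fin.lt_def]; simp; omega)
      have h1 : μ 1 j = 0 := hμ0 1 j (by rw [Fin.lt_def]; simpa using hj)
      simp [h0, h1]
    · intro x
      rw [hy₃' x, hy₂' x]
      have hcx : ∀ j, ∑ v ∈ S.per, (c j v : ℤ) * (v x : ℤ) = ∑ l, (μ j l : ℤ) * (fe L₁ l x : ℤ) := by
        intro j
        have := congrFun (hc j) x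
        simp only [Finset.sum_apply, Pi.smul_apply, smul_eq_mul] at this
        have h2 : ((∑ l, μ j l * fe L₁ l x : ℕ) : ℤ) = ((∑ v ∈ S.per, c j v * v x : ℕ) : ℤ) := by
          rw [this]
        push_cast at h2
        exact h2.symm
      have e1 : ∑ v ∈ S.per, ((∑ j, c j v : ℕ) : ℤ) * (v x : ℤ) =
          ∑ l, ((∑ j, μ j l : ℕ) : ℤ) * (fe L₁ l x : ℤ) := by
        push_cast
        simp only [Finset.sum_mul]
        rw [Finset.sum_comm, Finset.sum_congr rfl (fun j _ => hcx j), Finset.sum_comm]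
      have e2 : ∑ v ∈ S.per, ((c 0 v + c 1 v : ℕ) : ℤ) * (v x : ℤ) =
          ∑ l, ((μ 0 l + μ 1 l : ℕ) : ℤ) * (fe L₁ l x : ℤ) := by
        push_cast
        simp only [add_mul, Finset.sum_add_distrib]
        rw [hcx 0, hcx 1]
      rw [e1, e2]
      simp only [Pi.add_apply, Finset.sum_apply, Pi.smul_apply, smul_eq_mul]
      push_cast
      have e3 : ∑ j, ((θ₀ j : ℤ) + N * ∑ l, (μ l j : ℤ) + N' * ((μ 0 j : ℤ) + μ 1 j)) * (fe L₁ j x : ℤ) =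
          ∑ j, (θ₀ j : ℤ) * (fe L₁ j x : ℤ) + N * ∑ j, (∑ l, (μ l j : ℤ)) * (fe L₁ j x : ℤ) +
            N' * ∑ j, ((μ 0 j : ℤ) + μ 1 j) * (fe L₁ j x : ℤ) := by
        rw [Finset.mul_sum, Finset.mul_sum, ← Finset.sum_add_distrib, ← Finset.sum_add_distrib]
        exact Finset.sum_congr rfl (fun j _ => by ring)
      rw [e3]
      ring
  -- breaks
  have hbreak : ∀ i : Fin 52, ¬ IsMain i → ∃ (b : Fin 3) (s : Fin 8 → ℤ), PB b D s ∧
      mv (fun l k => if l = i then s k else 0) ∈ ZS Eall := fun i hi =>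
    hDP (Eall, i) ⟨⟨S, hS, hEall_sub⟩, trivial⟩ (hall i hi)
  have hform : ∀ (i j : Fin 52) (s₁ s₂ : Fin 8 → ℤ) (σ : Fin 52 → ℤ) (θ : Fin 158 → ℕ)
      (y : Fin 1248 → ℕ), (∀ x, (y x : ℤ) = ((bas D + ∑ j, θ j • fe L₁ j) x : ℕ) +
        (mv (fun l k => if l = i then s₁ k else 0) + mv (fun l k => if l = j then s₂ k else 0)) x +
        mv (fun l _ => σ l) x) → (fun x => (y x : ℤ)) = cfz (hts (Hc L₁ θ) D i j s₁ s₂ σ) := by
    intro i j s₁ s₂ σ θ y hy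
    have h1 : (fun x => (y x : ℤ)) = (fun x => ((bas D + ∑ j, θ j • fe L₁ j) x : ℤ)) +
        mv (fun l k => if l = i then s₁ k else 0) + mv (fun l k => if l = j then s₂ k else 0) +
        mv (fun l _ => σ l) := by
      funext x
      rw [hy x]
      simp only [Pi.add_apply]
      push_cast
      ring
    rw [h1, fam_cast, cfz_add_mv, cfz_add_mv, cfz_add_mv]
    rfl
  rcases hLP Etop ⟨S, hS, hEtop_sub⟩ htop with hA | hB
  · obtain ⟨i, j, hi, hj, h⟩ := hA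
    obtain ⟨b₁, s₁, hb₁, hs₁⟩ := hbreak i (by unfold IsMain; omega)
    obtain ⟨b₂, s₂, hb₂, hs₂⟩ := hbreak j (by unfold IsMain; omega)
    obtain ⟨θ₁, hθ₁⟩ := hmove _ (ZS_add _ _ _ hs₁ hs₂)
    obtain ⟨σ, h1, h2, h3, h4⟩ := h
      (∑ l, (θ₁ l : ℤ) * ddc l 0 2 - ∑ l, (θ₁ l : ℤ) * ddc l i b₁)
      (∑ l, (θ₁ l : ℤ) * ddc l 26 2 - ∑ l, (θ₁ l : ℤ) * ddc l j b₂)
    obtain ⟨θ₃, hθ₃, y, hyS, hy⟩ := hθ₁ _ h4
    refine (hev y).mpr ⟨S, hS, hyS⟩ (killA hM5b (Hc L₁ θ₃) D i j hi hj b₁ b₂ s₁ s₂ hb₁ hb₂ σ ?_ ?_ ?_ y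
      (hform i j s₁ s₂ σ θ₃ y hy))
    · have hd := Hc_diff L₁ θ₁ θ₃ hθ₃ 0 i 2 b₁ (by simp; omega)
      have he : Hc L₁ θ₁ 0 2 - Hc L₁ θ₁ i b₁ = σ i - σ 0 := by
        rw [h1]; unfold Hc; ring
      linarith
    · have hd := Hc_diff L₁ θ₁ θ₃ hθ₃ 26 j 2 b₂ (by simp; omega)
      have he : Hc L₁ θ₁ 26 2 - Hc L₁ θ₁ j b₂ = σ j - σ 26 := by
        rw [h2]; unfold Hc; ring
      linarith
    · rw [h3, Hc_main L₁ θ₃ 13 39 (by decide) (by decide) 2 (by decide)]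
  · obtain ⟨i, j, hi, hj, h⟩ := hB
    obtain ⟨b₁, s₁, hb₁, hs₁⟩ := hbreak i (by unfold IsMain; omega)
    obtain ⟨b₂, s₂, hb₂, hs₂⟩ := hbreak j (by unfold IsMain; omega)
    obtain ⟨θ₁, hθ₁⟩ := hmove _ (ZS_add _ _ _ hs₁ hs₂)
    obtain ⟨σ, h1, h2, h3, h4⟩ := h
      (∑ l, (θ₁ l : ℤ) * ddc l 13 2 - ∑ l, (θ₁ l : ℤ) * ddc l i b₁)
      (∑ l, (θ₁ l : ℤ) * ddc l 39 2 - ∑ l, (θ₁ l : ℤ) * ddc l j b₂)
    obtain ⟨θ₃, hθ₃, y, hyS, hy⟩ := hθ₁ _ h4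
    refine (hev y).mpr ⟨S, hS, hyS⟩ (killB hM5c (Hc L₁ θ₃) D i j hi hj b₁ b₂ s₁ s₂ hb₁ hb₂ σ ?_ ?_ ?_ y
      (hform i j s₁ s₂ σ θ₃ y hy))
    · have hd := Hc_diff L₁ θ₁ θ₃ hθ₃ 13 i 2 b₁ (by simp; omega)
      have he : Hc L₁ θ₁ 13 2 - Hc L₁ θ₁ i b₁ = σ i - σ 13 := by
        rw [h1]; unfold Hc; ring
      linarith
    · have hd := Hc_diff L₁ θ₁ θ₃ hθ₃ 39 j 2 b₂ (by simp; omega)
      have he : Hc L₁ θ₁ 39 2 - Hc L₁ θ₁ j b₂ = σ j - σ 39 := by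
        rw [h2]; unfold Hc; ring
      linarith
    · rw [h3, Hc_main L₁ θ₃ 0 26 (by decide) (by decide) 2 (by decide)]

end Pool.Agent.H5.CF
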