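import Mathlib

set_option autoImplicit false

/-!
# Minimal hulls of noncrossing families

Helper file of the modules M7a and M8 (free products of co-context-free groups), by helper29.
-/

namespace Pool.Agent.H5.CF

open Classical in
/-- Minimal hull argument: in a finite noncrossing family of supports there is a member whose hull has
no point of another member in its interior. -/
theorem hull_exists {m : ℕ} (P : Fin m → ℕ → Prop) (N : ℕ) (hN : ∀ c i, P c i → i < N)
    (hNC1 : ∀ c c', c ≠ c' → ∀ i j k l, i < j → j < k → k < l →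
      P c i → P c' j → P c k → P c' l → False)
    (hNC2 : ∀ c c', c ≠ c' → ∀ i j k, i < j → j < k →
      P c i → P c j → P c k → P c' i → P c' j → P c' k → False)
    (h2 : ∀ c i, P c i → ∃ i', i' ≠ i ∧ P c i')
    (hne : ∃ c i, P c i) :
    ∃ (D : Fin m) (A B : ℕ), A < B ∧ P D A ∧ P D B ∧ (∀ i, P D i → A ≤ i ∧ i ≤ B) ∧
      ∀ c, c ≠ D → ∀ z, A < z → z < B → ¬ P c z := by
  -- hulls
  have hull : ∀ c i, P c i → ∃ A B, P c A ∧ P c B ∧ ∀ i, P c i → A ≤ i ∧ i ≤ B := by
    intro c i hi
    have hex : ∃ i, P c i := ⟨i, hi⟩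
    obtain ⟨B, hB, hBmax⟩ := ((Finset.range N).filter (P c)).exists_max_image id
      ⟨i, by simp [hN c i hi, hi]⟩
    refine ⟨Nat.find hex, B, Nat.find_spec hex, (Finset.mem_filter.1 hB).2, fun j hj => ⟨Nat.find_min' hex hj, ?_⟩⟩
    exact hBmax j (by simp [hN c j hj, hj])
  let S : Fin m → Finset ℕ := fun c => (Finset.range N).filter (P c)
  have hS : ∀ c i, i ∈ S c ↔ P c i := by
    intro c i
    simp only [S, Finset.mem_filter, Finset.mem_range]
    exact ⟨fun h => h.2, fun h => ⟨hN c i h, h⟩⟩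
  have hScard : ∀ c, (S c).card ≤ N := by
    intro c
    calc (S c).card ≤ (Finset.range N).card := Finset.card_le_card (Finset.filter_subset _ _)
      _ = N := Finset.card_range N
  let T : Set (Fin m × ℕ × ℕ) := {t | P t.1 t.2.1 ∧ P t.1 t.2.2 ∧ ∀ i, P t.1 i → t.2.1 ≤ i ∧ i ≤ t.2.2}
  have hT : T.Nonempty := by
    obtain ⟨c, i, hi⟩ := hne
    obtain ⟨A, B, hA, hB, h⟩ := hull c i hi
    exact ⟨(c, A, B), hA, hB, h⟩
  let f : Fin m × ℕ × ℕ → ℕ := fun t => (t.2.2 - t.2.1) * (N + 1) + (N - (S t.1).card)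
  obtain ⟨⟨D, A, B⟩, hDAB, hmin⟩ := WellFounded.has_min (measure f).wf T hT
  obtain ⟨hDA, hDB, hDh⟩ := hDAB
  simp only at hDA hDB hDh
  have hAB : A < B := by
    obtain ⟨i', hne', hi'⟩ := h2 D A hDA
    have := hDh i' hi'
    omega
  refine ⟨D, A, B, hAB, hDA, hDB, hDh, ?_⟩
  intro c hcD z hAz hzB hcz
  -- the support of `c` is contained in `[A, B]`
  have hin : ∀ w, P c w → A ≤ w ∧ w ≤ B := by
    intro w hw
    constructor
    · by_contra hlt
      push Not at hlt
      exact hNC1 c D hcD w A z B hlt hAz hzB hw hDA hcz hDB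
    · by_contra hlt
      push Not at hlt
      exact hNC1 D c (Ne.symm hcD) A z B w hAz hzB hlt hDA hcz hDB hw
  obtain ⟨A', B', hcA, hcB, hch⟩ := hull c z hcz
  have h1 := hin A' hcA
  have h3 := hin B' hcB
  have h4 := hch z hcz
  have hle : f (D, A, B) ≤ f (c, A', B') := by
    by_contra hlt
    push Not at hlt
    exact hmin (c, A', B') ⟨hcA, hcB, hch⟩ hlt
  simp only [f] at hle
  have hlen : B - A ≤ B' - A' := by
    by_contra hlt
    push Not at hlt
    have : (B' - A' + 1) * (N + 1) ≤ (B - A) * (N + 1) := Nat.mul_le_mul_right _ hlt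
    have h5 : N - (S c).card ≤ N := Nat.sub_le _ _
    have h6 : (B' - A' + 1) * (N + 1) = (B' - A') * (N + 1) + (N + 1) := by ring
    omega
  have hA' : A' = A := by omega
  have hB' : B' = B := by omega
  subst hA' hB'
  have hcard : (S c).card ≤ (S D).card := by
    have := hScard c
    have := hScard D
    omega
  have h3c : 3 ≤ (S c).card := by
    have hsub : ({A', z, B'} : Finset ℕ) ⊆ S c := by
      intro w hw
      simp only [Finset.mem_insert, Finset.mem_singleton] at hw
      rw [hS]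
      rcases hw with rfl | rfl | rfl <;> assumption
    have hc3 : ({A', z, B'} : Finset ℕ).card = 3 := by
      rw [Finset.card_eq_three]
      exact ⟨A', z, B', by omega, by omega, by omega, rfl⟩
    calc 3 = ({A', z, B'} : Finset ℕ).card := hc3.symm
      _ ≤ _ := Finset.card_le_card hsub
  obtain ⟨w, hw, hwn⟩ : ∃ w, w ∈ S D ∧ w ∉ ({A', B'} : Finset ℕ) := by
    apply Finset.exists_mem_notMem_of_card_lt_card
    calc ({A', B'} : Finset ℕ).card ≤ 2 := Finset.card_le_two
      _ < 3 := by norm_num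
      _ ≤ _ := h3c.trans hcard
  simp only [Finset.mem_insert, Finset.mem_singleton, not_or] at hwn
  have hDw := (hS D w).1 hw
  have h7 := hDh w hDw
  rcases lt_trichotomy z w with hzw | hzw | hzw
  · exact hNC1 D c (Ne.symm hcD) A' z w B' hAz hzw (by omega) hDA hcz hDw hcB
  · subst hzw
    exact hNC2 c D hcD A' z B' hAz hzB hcA hcz hcB hDA hDw hDB
  · exact hNC1 c D hcD A' w z B' (by omega) hzw hzB hcA hDw hcz hDB

end Pool.Agent.H5.CF
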