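import Pool.Agent.H5.CF.Aux2

set_option autoImplicit false

/-!
# The two interfaces: shifts (IA) and breaks (IB)
-/

namespace Pool.Agent.H5.CF

open scoped BigOperators

/-- Clearing denominators: a rational combination becomes an integral one after multiplication. -/
lemma clear_den {K : ℕ} (E : Finset (Fin K → ℕ)) (y : Fin K → ℚ) (hy : y ∈ QS E) :
    ∃ L₀ : ℤ, 0 < L₀ ∧ ∃ c : (Fin K → ℕ) → ℤ, ∀ x, (L₀ : ℚ) * y x = ∑ v ∈ E, (c v : ℚ) * (v x : ℚ) := by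
  classical
  unfold QS at hy
  induction hy using Submodule.span_induction with
  | mem y hy =>
    obtain ⟨v, hv, rfl⟩ := hy
    refine ⟨1, one_pos, fun w => if w = v then 1 else 0, ?_⟩
    intro x
    simp only [Int.cast_one, one_mul]
    rw [Finset.sum_eq_single v]
    · simp
    · intro w _ hw; simp [hw]
    · intro h; exact absurd (by exact_mod_cast hv) h
  | zero => exact ⟨1, one_pos, fun _ => 0, by intro x; simp⟩
  | add y z _ _ hy hz =>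
    obtain ⟨a, ha, c, hc⟩ := hy
    obtain ⟨b, hb, d, hd⟩ := hz
    refine ⟨a * b, mul_pos ha hb, fun v => b * c v + a * d v, ?_⟩
    intro x
    have h1 := hc x
    have h2 := hd x
    push_cast
    rw [Pi.add_apply, mul_add]
    have h3 : ∑ v ∈ E, ((b : ℚ) * c v + a * d v) * (v x : ℚ) =
        b * ∑ v ∈ E, (c v : ℚ) * (v x : ℚ) + a * ∑ v ∈ E, (d v : ℚ) * (v x : ℚ) := by
      rw [Finset.mul_sum, Finset.mul_sum, ← Finset.sum_add_distrib]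
      exact Finset.sum_congr rfl (fun v _ => by ring)
    rw [h3, ← h1, ← h2]
    ring
  | smul r y _ hy =>
    obtain ⟨a, ha, c, hc⟩ := hy
    refine ⟨r.den * a, mul_pos (by exact_mod_cast r.den_pos) ha, fun v => r.num * c v, ?_⟩
    intro x
    have h1 := hc x
    have h2 : (r.den : ℚ) * r = r.num := Rat.den_mul_eq_num r
    push_cast
    rw [Pi.smul_apply, smul_eq_mul]
    have h3 : ∑ v ∈ E, ((r.num : ℚ) * c v) * (v x : ℚ) = r.num * ∑ v ∈ E, (c v : ℚ) * (v x : ℚ) := by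
      rw [Finset.mul_sum]
      exact Finset.sum_congr rfl (fun v _ => by ring)
    rw [h3, ← h1, ← h2]
    ring

lemma clear_den_int {K : ℕ} (E : Finset (Fin K → ℕ)) (z : Fin K → ℤ) (hz : (fun x => (z x : ℚ)) ∈ QS E) :
    ∃ L₀ : ℤ, 0 < L₀ ∧ ∀ M : ℤ, (fun x => M * L₀ * z x) ∈ ZS E := by
  obtain ⟨L₀, h0, c, hc⟩ := clear_den E _ hz
  refine ⟨L₀, h0, fun M => ⟨fun v => M * c v, ?_⟩⟩
  intro x
  have h1 : L₀ * z x = ∑ v ∈ E, c v * (v x : ℤ) := by exact_mod_cast hc x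
  show M * L₀ * z x = ∑ v ∈ E, M * c v * (v x : ℤ)
  rw [mul_assoc, h1, Finset.mul_sum]
  exact Finset.sum_congr rfl (fun v _ => by ring)

/-! ### Sums over runs -/

/-- numbering of the runs as an equivalence -/
def runEquiv : Fin 52 × Fin 8 × Fin 3 ≃ Fin 1248 where
  toFun x := run x.1 x.2.1 x.2.2
  invFun x := (syl x, atm x, part x)
  left_inv := by
    rintro ⟨i, k, c⟩
    simp only [syl_run, atm_run, part_run]
  right_inv x := run_eta x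

lemma sum_runs (F : Fin 1248 → ℚ) : ∑ x, F x = ∑ i : Fin 52, ∑ k : Fin 8, ∑ p : Fin 3, F (run i k p) := by
  rw [← Equiv.sum_comp runEquiv F, Fintype.sum_prod_type]
  refine Finset.sum_congr rfl (fun i _ => ?_)
  rw [Fintype.sum_prod_type]
  rfl

lemma sum_mv (ρ : Fin 1248 → ℚ) (s : Fin 52 → Fin 8 → ℚ) :
    ∑ x, ρ x * (if part x = 1 then 0 else s (syl x) (atm x)) =
      ∑ i : Fin 52, ∑ k : Fin 8, (ρ (run i k 0) + ρ (run i k 2)) * s i k := by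
  rw [sum_runs]
  refine Finset.sum_congr rfl (fun i _ => Finset.sum_congr rfl (fun k _ => ?_))
  rw [Fin.sum_univ_three]
  have h0 : ¬ ((0 : Fin 3) = 1) := by decide
  have h2 : ¬ ((2 : Fin 3) = 1) := by decide
  simp only [part_run, syl_run, atm_run, h0, h2, if_false, if_true]
  ring

lemma run_lt {i : Fin 52} {k l : Fin 8} (h : k < l) (p p' : Fin 3) : run i k p < run i l p' := by
  have h' : (k : ℕ) < l := h
  show (24 * (i : ℕ) + 3 * k + p) < 24 * i + 3 * l + p'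
  omega

/-- **IB.** -/
theorem IB_of (hM6 : TargetM6) (hM8 : TargetM8) : TargetIB := by
  intro E hE i hdir
  obtain ⟨m, ρ, ⟨hdis, hnc⟩, hspan⟩ := hM6 1248 E hE
  have hpart : ∀ (c : Fin m) (k : Fin 8), ρ c (run i k 0) + ρ c (run i k 2) ≠ 0 →
      ∃ p : Fin 3, ρ c (run i k p) ≠ 0 := by
    intro c k h
    by_contra hcon
    push Not at hcon
    exact h (by rw [hcon 0, hcon 2, add_zero])
  have hS : ∀ c, ∀ b : Fin 3,
      ∑ k, (if cls k = b then (ρ c (run i k 0) + ρ c (run i k 2)) else 0) = 0 := by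
    intro c b
    have h1 := (hspan _).mp (hdir b) c
    have h2 : ∑ x, ρ c x * (dirR (dirP i b) x : ℚ) =
        ∑ x, ρ c x * (if part x = 1 then 0 else (fun l k => if l = i ∧ cls k = b then (1 : ℚ) else 0) (syl x) (atm x)) := by
      refine Finset.sum_congr rfl (fun x _ => ?_)
      unfold dirR dirP
      by_cases hp : part x = 1
      · simp [hp]
      · by_cases hq : syl x = i ∧ cls (atm x) = b
        · simp [hp, hq]
        · simp only [hp, hq, if_false, Nat.cast_zero]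
    have h3 := (h2.trans (sum_mv (ρ c) (fun l k => if l = i ∧ cls k = b then (1 : ℚ) else 0))).symm.trans h1
    rw [Finset.sum_eq_single i] at h3
    · refine Eq.trans (Finset.sum_congr rfl (fun k _ => ?_)) h3
      by_cases hk : cls k = b <;> simp [hk]
    · intro l _ hl
      exact Finset.sum_eq_zero (fun k _ => by simp [hl])
    · intro h; exact absurd (Finset.mem_univ _) h
  obtain ⟨b, d, s, hd, hPB, hrel⟩ := hM8 m (fun c k => ρ c (run i k 0) + ρ c (run i k 2))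
    (by
      intro c c' hcc k₁ k₂ k₃ k₄ h12 h23 h34 e1 e2 e3 e4
      obtain ⟨p₁, q₁⟩ := hpart c k₁ e1
      obtain ⟨p₂, q₂⟩ := hpart c' k₂ e2
      obtain ⟨p₃, q₃⟩ := hpart c k₃ e3
      obtain ⟨p₄, q₄⟩ := hpart c' k₄ e4
      exact hnc c c' hcc _ _ _ _ (run_lt h12 p₁ p₂) (run_lt h23 p₂ p₃) (run_lt h34 p₃ p₄) q₁ q₂ q₃ q₄)
    (by
      intro c c' hcc k₁ k₂ k₃ h12 h23 e1 e2 e3 e1' e2' e3'
      obtain ⟨p₁, q₁⟩ := hpart c k₁ e1
      obtain ⟨p₂, q₂⟩ := hpart c k₂ e2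
      obtain ⟨p₃, q₃⟩ := hpart c k₃ e3
      obtain ⟨p₁', q₁'⟩ := hpart c' k₁ e1'
      obtain ⟨p₂', q₂'⟩ := hpart c' k₂ e2'
      obtain ⟨p₃', q₃'⟩ := hpart c' k₃ e3'
      rcases lt_trichotomy (run i k₁ p₁) (run i k₁ p₁') with h | h | h
      · exact hnc c c' hcc _ _ _ _ h (run_lt h12 p₁' p₂) (run_lt h23 p₂ p₃') q₁ q₁' q₂ q₃'
      · exact q₁' (by rw [← h]; exact hdis c c' hcc _ q₁)
      · exact hnc c' c hcc.symm _ _ _ _ h (run_lt h12 p₁ p₂') (run_lt h23 p₂' p₃) q₁' q₁ q₂' q₃)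
    hS
  have hmem : (fun x => ((mv (fun l k => if l = i then s k else 0) x : ℤ) : ℚ)) ∈ QS E := by
    refine (hspan _).mpr ?_
    intro c
    have h2 : ∑ x, ρ c x * ((mv (fun l k => if l = i then s k else 0) x : ℤ) : ℚ) =
        ∑ x, ρ c x * (if part x = 1 then 0 else (fun l k => if l = i then (s k : ℚ) else 0) (syl x) (atm x)) := by
      refine Finset.sum_congr rfl (fun x _ => ?_)
      unfold mv
      by_cases hp : part x = 1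
      · simp [hp]
      · by_cases hq : syl x = i
        · simp [hp, hq]
        · simp only [hp, hq, if_false, Int.cast_zero]
    refine (h2.trans (sum_mv (ρ c) (fun l k => if l = i then (s k : ℚ) else 0))).trans ?_
    rw [Finset.sum_eq_single i]
    · refine Eq.trans (Finset.sum_congr rfl (fun k _ => ?_)) (hrel c)
      simp
    · intro l _ hl
      exact Finset.sum_eq_zero (fun k _ => by simp [hl])
    · intro h; exact absurd (Finset.mem_univ _) h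
  obtain ⟨L₀, hL₀, hZ⟩ := clear_den_int E _ hmem
  refine ⟨L₀ * d, mul_pos hL₀ hd, ?_⟩
  intro M hM
  refine ⟨b, fun k => M * L₀ * s k, ?_, ?_⟩
  · have := hPB (M * L₀) (mul_pos hM hL₀)
    rwa [mul_assoc] at this
  · have h1 := hZ M
    have h2 : mv (fun l k => if l = i then M * L₀ * s k else 0) =
        fun x => M * L₀ * mv (fun l k => if l = i then s k else 0) x := by
      funext x
      unfold mv
      split_ifs <;> simp
    rw [h2]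
    exact h1

/-- Integral multiples of the shifts in `Vsub`. -/
lemma shift_int (E : Finset (Fin 1248 → ℕ)) {m : ℕ} (ρ : Fin m → Fin 1248 → ℚ)
    (hspan : ∀ y : Fin 1248 → ℚ, y ∈ QS E ↔ ∀ c, ∑ x, ρ c x * y x = 0)
    (σ : ℕ → ℚ) (hσ : σ ∈ Vsub (fun c x => if part x = 1 then 0 else ρ c x) (fun x => (syl x : ℕ))) :
    ∃ M : ℤ, 0 < M ∧ ∃ σ' : Fin 52 → ℤ, (∀ l : Fin 52, (σ' l : ℚ) = M * σ l) ∧
      mv (fun l _ => σ' l) ∈ ZS E := by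
  classical
  -- common denominator
  obtain ⟨M₀, hM₀, σ₀, hσ₀⟩ : ∃ M₀ : ℤ, 0 < M₀ ∧ ∃ σ₀ : Fin 52 → ℤ, ∀ l : Fin 52, (σ₀ l : ℚ) = M₀ * σ l := by
    refine ⟨∏ l : Fin 52, ((σ l).den : ℤ), Finset.prod_pos (fun l _ => by exact_mod_cast (σ l).den_pos),
      fun l => (∏ l' ∈ Finset.univ.erase l, ((σ l').den : ℤ)) * (σ l).num, ?_⟩
    intro l
    have h1 : (∏ l : Fin 52, ((σ l).den : ℤ)) = (σ l).den * ∏ l' ∈ Finset.univ.erase l, ((σ l').den : ℤ) :=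
      (Finset.mul_prod_erase Finset.univ (fun l : Fin 52 => ((σ l).den : ℤ)) (Finset.mem_univ l)).symm
    rw [h1]
    have h2 : ((σ l).den : ℚ) * σ l = (σ l).num := Rat.den_mul_eq_num _
    push_cast
    rw [← h2]
    ring
  have hmem : (fun x => ((mv (fun l _ => σ₀ l) x : ℤ) : ℚ)) ∈ QS E := by
    refine (hspan _).mpr ?_
    intro c
    have h1 := hσ c
    have h2 : ∑ x, ρ c x * ((mv (fun l _ => σ₀ l) x : ℤ) : ℚ) =
        M₀ * ∑ x, (if part x = 1 then 0 else ρ c x) * σ (syl x : ℕ) := by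
      rw [Finset.mul_sum]
      refine Finset.sum_congr rfl (fun x _ => ?_)
      unfold mv
      by_cases hp : part x = 1
      · simp [hp]
      · simp only [hp, if_false]
        rw [hσ₀]
        ring
    rw [h2]
    simp only at h1
    rw [h1, mul_zero]
  obtain ⟨L₀, hL₀, hZ⟩ := clear_den_int E _ hmem
  refine ⟨L₀ * M₀, mul_pos hL₀ hM₀, fun l => L₀ * σ₀ l, ?_, ?_⟩
  · intro l
    push_cast
    rw [hσ₀ l]
    ring
  · have h1 := hZ 1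
    have h2 : mv (fun l _ => L₀ * σ₀ l) = fun x => 1 * L₀ * mv (fun l _ => σ₀ l) x := by
      funext x
      unfold mv
      split_ifs <;> simp
    rw [h2]
    exact h1

lemma ZS_comb {K : ℕ} (E : Finset (Fin K → ℕ)) (a b : ℤ) (y z : Fin K → ℤ) (hy : y ∈ ZS E) (hz : z ∈ ZS E) :
    (fun x => a * y x + b * z x) ∈ ZS E := by
  obtain ⟨c, hc⟩ := hy
  obtain ⟨d, hd⟩ := hz
  refine ⟨fun v => a * c v + b * d v, ?_⟩
  intro x
  show a * y x + b * z x = ∑ v ∈ E, (a * c v + b * d v) * (v x : ℤ)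
  rw [hc x, hd x, Finset.mul_sum, Finset.mul_sum, ← Finset.sum_add_distrib]
  exact Finset.sum_congr rfl (fun v _ => by ring)

/-- **IA.** -/
theorem IA_of (hM6 : TargetM6) (hM7 : TargetM7) (hSEL : TargetSEL) : TargetIA := by
  intro E hE hdir
  obtain ⟨m, ρ, ⟨hdis, hnc⟩, hspan⟩ := hM6 1248 E hE
  have hspan' : ∀ y : Fin 1248 → ℚ, y ∈ QS E ↔ ∀ c, ∑ x, ρ c x * y x = 0 := hspan
  have hmono : Monotone (fun x : Fin 1248 => (syl x : ℕ)) := by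
    intro x y hxy
    show (x : ℕ) / 24 ≤ (y : ℕ) / 24
    exact Nat.div_le_div_right hxy
  have hne : ∀ c x, (if part x = 1 then 0 else ρ c x) ≠ 0 → ρ c x ≠ 0 := by
    intro c x h
    by_cases hp : part x = 1
    · simp [hp] at h
    · simpa [hp] using h
  have hNC : NCfam (fun c x => if part x = 1 then 0 else ρ c x) := by
    refine ⟨?_, ?_⟩
    · intro c c' hcc x hx
      have := hdis c c' hcc x (hne c x hx)
      show (if part x = 1 then 0 else ρ c' x) = 0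
      rw [this]
      simp
    · intro c c' hcc i j k l h1 h2 h3 e1 e2 e3 e4
      exact hnc c c' hcc i j k l h1 h2 h3 (hne _ _ e1) (hne _ _ e2) (hne _ _ e3) (hne _ _ e4)
  have hCS : CS (fun c x => if part x = 1 then 0 else ρ c x) (fun x : Fin 1248 => (syl x : ℕ)) := by
    intro c b
    by_cases hb : b < 2
    · have h1 := (hspan' _).mp (hdir b hb) c
      refine Eq.trans (Finset.sum_congr rfl (fun x _ => ?_)) h1
      unfold dirR dirC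
      by_cases hp : part x = 1
      · simp [hp]
      · by_cases hq : (syl x : ℕ) % 2 = b
        · simp [hp, hq]
        · simp only [hp, hq, if_false, Nat.cast_zero, mul_zero]
    · refine Finset.sum_eq_zero (fun x _ => ?_)
      rw [if_neg]
      have := Nat.mod_lt (syl x : ℕ) (by norm_num : 0 < 2)
      omega
  have hdim := hM7 1248 m _ _ hmono hNC hCS
  have hcombo : ∀ (M₁ M₂ τ₁ τ₂ : ℤ) (σ₁ σ₂ : Fin 52 → ℤ), mv (fun l _ => σ₁ l) ∈ ZS E →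
      mv (fun l _ => σ₂ l) ∈ ZS E →
      mv (fun l _ => M₂ * τ₁ * σ₁ l + M₁ * τ₂ * σ₂ l) ∈ ZS E := by
    intro M₁ M₂ τ₁ τ₂ σ₁ σ₂ h1 h2
    have h := ZS_comb E (M₂ * τ₁) (M₁ * τ₂) _ _ h1 h2
    have h3 : mv (fun l _ => M₂ * τ₁ * σ₁ l + M₁ * τ₂ * σ₂ l) =
        fun x => M₂ * τ₁ * mv (fun l _ => σ₁ l) x + M₁ * τ₂ * mv (fun l _ => σ₂ l) x := by
      funext x
      unfold mv
      split_ifs <;> simp
    rw [h3]
    exact h
  rcases hSEL _ (fun p _ => hdim p 12 (by norm_num)) with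
    ⟨i, j, hi, hj, ⟨σ₁, hσ₁, a1, a2, a3⟩, ⟨σ₂, hσ₂, b1, b2, b3⟩⟩ |
    ⟨i, j, hi, hj, ⟨σ₁, hσ₁, a1, a2, a3⟩, ⟨σ₂, hσ₂, b1, b2, b3⟩⟩
  · obtain ⟨M₁, hM₁, s₁, hs₁, hz₁⟩ := shift_int E ρ hspan' ((σ₁ i - σ₁ 0)⁻¹ • σ₁)
      (Submodule.smul_mem _ _ hσ₁)
    obtain ⟨M₂, hM₂, s₂, hs₂, hz₂⟩ := shift_int E ρ hspan' ((σ₂ j - σ₂ 26)⁻¹ • σ₂)
      (Submodule.smul_mem _ _ hσ₂)
    refine ⟨M₁ * M₂, mul_pos hM₁ hM₂, Or.inl ⟨i, j, hi, hj, ?_⟩⟩
    simp only [Pi.smul_apply, smul_eq_mul] at hs₁ hs₂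
    have e1 : s₁ i - s₁ 0 = M₁ := by
      have : ((s₁ i - s₁ 0 : ℤ) : ℚ) = M₁ := by
        push_cast
        rw [hs₁ i, hs₁ 0]
        show (M₁ : ℚ) * ((σ₁ i - σ₁ 0)⁻¹ * σ₁ i) - M₁ * ((σ₁ i - σ₁ 0)⁻¹ * σ₁ 0) = M₁
        field_simp
      exact_mod_cast this
    have e2 : s₁ j - s₁ 26 = 0 := by
      have : ((s₁ j - s₁ 26 : ℤ) : ℚ) = 0 := by
        push_cast
        rw [hs₁ j, hs₁ 26]
        show (M₁ : ℚ) * ((σ₁ i - σ₁ 0)⁻¹ * σ₁ j) - M₁ * ((σ₁ i - σ₁ 0)⁻¹ * σ₁ 26) = 0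
        rw [sub_eq_zero.mp a3, sub_self]
      exact_mod_cast this
    have e3 : s₁ 13 = s₁ 39 := by
      have : (s₁ 13 : ℚ) = s₁ 39 := by
        rw [hs₁ 13, hs₁ 39]
        show (M₁ : ℚ) * ((σ₁ i - σ₁ 0)⁻¹ * σ₁ 13) = M₁ * ((σ₁ i - σ₁ 0)⁻¹ * σ₁ 39)
        rw [a1]
      exact_mod_cast this
    have f1 : s₂ i - s₂ 0 = 0 := by
      have : ((s₂ i - s₂ 0 : ℤ) : ℚ) = 0 := by
        push_cast
        rw [hs₂ i, hs₂ 0]
        show (M₂ : ℚ) * ((σ₂ j - σ₂ 26)⁻¹ * σ₂ i) - M₂ * ((σ₂ j - σ₂ 26)⁻¹ * σ₂ 0) = 0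
        rw [sub_eq_zero.mp b2, sub_self]
      exact_mod_cast this
    have f2 : s₂ j - s₂ 26 = M₂ := by
      have : ((s₂ j - s₂ 26 : ℤ) : ℚ) = M₂ := by
        push_cast
        rw [hs₂ j, hs₂ 26]
        show (M₂ : ℚ) * ((σ₂ j - σ₂ 26)⁻¹ * σ₂ j) - M₂ * ((σ₂ j - σ₂ 26)⁻¹ * σ₂ 26) = M₂
        field_simp
      exact_mod_cast this
    have f3 : s₂ 13 = s₂ 39 := by
      have : (s₂ 13 : ℚ) = s₂ 39 := by
        rw [hs₂ 13, hs₂ 39]
        show (M₂ : ℚ) * ((σ₂ j - σ₂ 26)⁻¹ * σ₂ 13) = M₂ * ((σ₂ j - σ₂ 26)⁻¹ * σ₂ 39)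
        rw [b1]
      exact_mod_cast this
    intro τ₁ τ₂
    refine ⟨fun l => M₂ * τ₁ * s₁ l + M₁ * τ₂ * s₂ l, ?_, ?_, ?_, hcombo _ _ _ _ _ _ hz₁ hz₂⟩
    · have : M₂ * τ₁ * s₁ i + M₁ * τ₂ * s₂ i - (M₂ * τ₁ * s₁ 0 + M₁ * τ₂ * s₂ 0) =
          M₂ * τ₁ * (s₁ i - s₁ 0) + M₁ * τ₂ * (s₂ i - s₂ 0) := by ring
      rw [this, e1, f1]; ring
    · have : M₂ * τ₁ * s₁ j + M₁ * τ₂ * s₂ j - (M₂ * τ₁ * s₁ 26 + M₁ * τ₂ * s₂ 26) =
          M₂ * τ₁ * (s₁ j - s₁ 26) + M₁ * τ₂ * (s₂ j - s₂ 26) := by ring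
      rw [this, e2, f2]; ring
    · show M₂ * τ₁ * s₁ 13 + M₁ * τ₂ * s₂ 13 = M₂ * τ₁ * s₁ 39 + M₁ * τ₂ * s₂ 39
      rw [e3, f3]
  · obtain ⟨M₁, hM₁, s₁, hs₁, hz₁⟩ := shift_int E ρ hspan' ((σ₁ i - σ₁ 13)⁻¹ • σ₁)
      (Submodule.smul_mem _ _ hσ₁)
    obtain ⟨M₂, hM₂, s₂, hs₂, hz₂⟩ := shift_int E ρ hspan' ((σ₂ j - σ₂ 39)⁻¹ • σ₂)
      (Submodule.smul_mem _ _ hσ₂)
    refine ⟨M₁ * M₂, mul_pos hM₁ hM₂, Or.inr ⟨i, j, hi, hj, ?_⟩⟩
    simp only [Pi.smul_apply, smul_eq_mul] at hs₁ hs₂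
    have e1 : s₁ i - s₁ 13 = M₁ := by
      have : ((s₁ i - s₁ 13 : ℤ) : ℚ) = M₁ := by
        push_cast
        rw [hs₁ i, hs₁ 13]
        show (M₁ : ℚ) * ((σ₁ i - σ₁ 13)⁻¹ * σ₁ i) - M₁ * ((σ₁ i - σ₁ 13)⁻¹ * σ₁ 13) = M₁
        field_simp
      exact_mod_cast this
    have e2 : s₁ j - s₁ 39 = 0 := by
      have : ((s₁ j - s₁ 39 : ℤ) : ℚ) = 0 := by
        push_cast
        rw [hs₁ j, hs₁ 39]
        show (M₁ : ℚ) * ((σ₁ i - σ₁ 13)⁻¹ * σ₁ j) - M₁ * ((σ₁ i - σ₁ 13)⁻¹ * σ₁ 39) = 0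
        rw [sub_eq_zero.mp a3, sub_self]
      exact_mod_cast this
    have e3 : s₁ 0 = s₁ 26 := by
      have : (s₁ 0 : ℚ) = s₁ 26 := by
        rw [hs₁ 0, hs₁ 26]
        show (M₁ : ℚ) * ((σ₁ i - σ₁ 13)⁻¹ * σ₁ 0) = M₁ * ((σ₁ i - σ₁ 13)⁻¹ * σ₁ 26)
        rw [a1]
      exact_mod_cast this
    have f1 : s₂ i - s₂ 13 = 0 := by
      have : ((s₂ i - s₂ 13 : ℤ) : ℚ) = 0 := by
        push_cast
        rw [hs₂ i, hs₂ 13]
        show (M₂ : ℚ) * ((σ₂ j - σ₂ 39)⁻¹ * σ₂ i) - M₂ * ((σ₂ j - σ₂ 39)⁻¹ * σ₂ 13) = 0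
        rw [sub_eq_zero.mp b2, sub_self]
      exact_mod_cast this
    have f2 : s₂ j - s₂ 39 = M₂ := by
      have : ((s₂ j - s₂ 39 : ℤ) : ℚ) = M₂ := by
        push_cast
        rw [hs₂ j, hs₂ 39]
        show (M₂ : ℚ) * ((σ₂ j - σ₂ 39)⁻¹ * σ₂ j) - M₂ * ((σ₂ j - σ₂ 39)⁻¹ * σ₂ 39) = M₂
        field_simp
      exact_mod_cast this
    have f3 : s₂ 0 = s₂ 26 := by
      have : (s₂ 0 : ℚ) = s₂ 26 := by
        rw [hs₂ 0, hs₂ 26]
        show (M₂ : ℚ) * ((σ₂ j - σ₂ 39)⁻¹ * σ₂ 0) = M₂ * ((σ₂ j - σ₂ 39)⁻¹ * σ₂ 26)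
        rw [b1]
      exact_mod_cast this
    intro τ₁ τ₂
    refine ⟨fun l => M₂ * τ₁ * s₁ l + M₁ * τ₂ * s₂ l, ?_, ?_, ?_, hcombo _ _ _ _ _ _ hz₁ hz₂⟩
    · have : M₂ * τ₁ * s₁ i + M₁ * τ₂ * s₂ i - (M₂ * τ₁ * s₁ 13 + M₁ * τ₂ * s₂ 13) =
          M₂ * τ₁ * (s₁ i - s₁ 13) + M₁ * τ₂ * (s₂ i - s₂ 13) := by ring
      rw [this, e1, f1]; ring
    · have : M₂ * τ₁ * s₁ j + M₁ * τ₂ * s₂ j - (M₂ * τ₁ * s₁ 39 + M₁ * τ₂ * s₂ 39) =
          M₂ * τ₁ * (s₁ j - s₁ 39) + M₁ * τ₂ * (s₂ j - s₂ 39) := by ring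
      rw [this, e2, f2]; ring
    · show M₂ * τ₁ * s₁ 0 + M₁ * τ₂ * s₂ 0 = M₂ * τ₁ * s₁ 26 + M₁ * τ₂ * s₂ 26
      rw [e3, f3]

end Pool.Agent.H5.CF
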