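import Pool.Agent.H5.CF.Targets

set_option autoImplicit false

/-!
# Module M6 (relations of a stratified set)
-/

namespace Pool.Agent.H5.CF.M6mod

open Pool.Agent.H5.CF
open scoped BigOperators

variable {K : ℕ} (E : Finset (Fin K → ℕ))

/-- adjacency of coordinates -/
def Adj (i j : Fin K) : Prop := ∃ v ∈ E, v i ≠ 0 ∧ v j ≠ 0

lemma Adj.symm {i j : Fin K} (h : Adj E i j) : Adj E j i := by
  obtain ⟨v, hv, h1, h2⟩ := h
  exact ⟨v, hv, h2, h1⟩

/-- connectedness -/
def Cn (i j : Fin K) : Prop := Relation.ReflTransGen (Adj E) i j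

lemma Cn.symm {i j : Fin K} (h : Cn E i j) : Cn E j i := by
  induction h with
  | refl => exact Relation.ReflTransGen.refl
  | tail _ h2 ih => exact Relation.ReflTransGen.head (Adj.symm E h2) ih

/-- the components -/
def cset : Setoid (Fin K) where
  r := Cn E
  iseqv := ⟨fun _ => Relation.ReflTransGen.refl, fun h => Cn.symm E h, fun h1 h2 => h1.trans h2⟩

/-- orthogonality -/
def Perp (r : Fin K → ℚ) : Prop := ∀ v ∈ E, ∑ x, r x * (v x : ℚ) = 0

variable {E}

lemma three (hE : Strat (E : Set (Fin K → ℕ))) {v : Fin K → ℕ} (hv : v ∈ E) {x y z : Fin K}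
    (hxy : x ≠ y) (hxz : x ≠ z) (hyz : y ≠ z) (hx : v x ≠ 0) (hy : v y ≠ 0) (hz : v z ≠ 0) :
    False := by
  have h := hE.1 v (by exact_mod_cast hv)
  rcases lt_or_gt_of_ne hxy with a | a <;> rcases lt_or_gt_of_ne hxz with b | b <;>
    rcases lt_or_gt_of_ne hyz with c | c
  · exact h x y z a c hx hy hz
  · exact h x z y b c hx hz hy
  · exact absurd (a.trans c) (not_lt.2 b.le)
  · exact h z x y b a hz hx hy
  · exact h y x z a b hy hx hz
  · exact absurd (c.trans a) (not_lt.2 b.le)
  · exact h y z x c b hy hz hx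
  · exact h z y x c a hz hy hx

lemma restrict_perp (q : Quotient (cset E)) {r : Fin K → ℚ} (hr : Perp E r) [DecidableEq (Quotient (cset E))] :
    Perp E (fun x => if (Quotient.mk (cset E) x) = q then r x else 0) := by
  intro v hv
  by_cases h : ∃ x0, v x0 ≠ 0 ∧ Quotient.mk (cset E) x0 = q
  · obtain ⟨x0, hx0, hq⟩ := h
    refine (Finset.sum_congr rfl fun x _ => ?_).trans (hr v hv)
    by_cases hx : v x = 0
    · simp [hx]
    · have : Quotient.mk (cset E) x = q := by
        rw [← hq]
        apply Quotient.sound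
        exact Relation.ReflTransGen.single ⟨v, hv, hx, hx0⟩
      simp only [this, if_true]
  · push Not at h
    refine Finset.sum_eq_zero fun x _ => ?_
    by_cases hx : v x = 0
    · simp [hx]
    · simp only [h x hx, if_false, zero_mul]

lemma propagate (hE : Strat (E : Set (Fin K → ℕ))) {s : Fin K → ℚ} (hs : Perp E s) {i k : Fin K}
    (hi : s i = 0) (h : Cn E i k) : s k = 0 := by
  induction h with
  | refl => exact hi
  | @tail b c _ hbc ih =>
    obtain ⟨v, hv, hb, hc⟩ := hbc
    by_cases hbc' : b = c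
    · rw [← hbc']; exact ih
    have h1 := hs v hv
    rw [Finset.sum_eq_single c] at h1
    · rcases mul_eq_zero.1 h1 with h2 | h2
      · exact h2
      · exact absurd (by exact_mod_cast h2) hc
    · intro x _ hxc
      by_cases hxb : x = b
      · rw [hxb, ih, zero_mul]
      · have : v x = 0 := by
          by_contra hx
          exact three hE hv hbc' (Ne.symm hxb) (Ne.symm hxc) hb hc hx
        rw [this]; simp
    · intro h2; exact absurd (Finset.mem_univ _) h2

/-- uniqueness of the relation of a component -/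
lemma unique_rel (hE : Strat (E : Set (Fin K → ℕ))) (q : Quotient (cset E)) {r r' : Fin K → ℚ}
    (hr : Perp E r) (hr' : Perp E r')
    (hs : ∀ x, Quotient.mk (cset E) x ≠ q → r x = 0)
    (hs' : ∀ x, Quotient.mk (cset E) x ≠ q → r' x = 0) (hne : ∃ i, r i ≠ 0) :
    ∃ l : ℚ, ∀ x, r' x = l * r x := by
  obtain ⟨i, hi⟩ := hne
  have hiq : Quotient.mk (cset E) i = q := by
    by_contra h
    exact hi (hs i h)
  refine ⟨r' i / r i, ?_⟩
  have hp : Perp E (fun x => r' x - r' i / r i * r x) := by
    intro v hv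
    have e : ∀ x, (r' x - r' i / r i * r x) * (v x : ℚ) =
        r' x * (v x : ℚ) - r' i / r i * (r x * (v x : ℚ)) := by intro x; ring
    simp only [e]
    rw [Finset.sum_sub_distrib, ← Finset.mul_sum, hr v hv, hr' v hv]
    simp
  intro x
  by_cases hx : Quotient.mk (cset E) x = q
  · have h0 : r' i - r' i / r i * r i = 0 := by field_simp; simp
    have hc : Cn E i x := Quotient.exact (hiq.trans hx.symm)
    have := propagate hE hp (i := i) (k := x) h0 hc
    linarith
  · rw [hs x hx, hs' x hx, mul_zero]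

/-- duality -/
lemma dual {y : Fin K → ℚ}
    (hy : ∀ r, Perp E r → ∑ x, r x * y x = 0) :
    y ∈ Submodule.span ℚ ((fun (v : Fin K → ℕ) (x : Fin K) => (v x : ℚ)) '' (E : Set (Fin K → ℕ))) := by
  classical
  by_contra hn
  obtain ⟨f, hf, hle⟩ := Submodule.exists_le_ker_of_notMem hn
  apply hf
  have hrep : ∀ z : Fin K → ℚ, f z = ∑ x, f (Pi.single x 1) * z x := by
    intro z
    have hz : z = ∑ x, z x • (Pi.single x 1 : Fin K → ℚ) := by
      funext t
      simp [Finset.sum_apply, Pi.single_apply]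
    conv_lhs => rw [hz]
    rw [map_sum]
    refine Finset.sum_congr rfl fun x _ => ?_
    rw [map_smul, smul_eq_mul, mul_comm]
  rw [hrep]
  apply hy
  intro v hv
  rw [← hrep (fun x => (v x : ℚ))]
  exact hle (Submodule.subset_span ⟨v, by exact_mod_cast hv, rfl⟩)

lemma boundary {i k : Fin K} (P : Fin K → Prop) (h : Cn E i k) (hi : ¬ P i) (hk : P k) :
    ∃ a b, Cn E i a ∧ Adj E a b ∧ ¬ P a ∧ P b := by
  induction h with
  | refl => exact absurd hk hi
  | @tail b c h1 h2 ih =>
    by_cases hb : P b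
    · exact ih hb
    · exact ⟨b, c, h1, h2, hb, hk⟩

lemma noncross (hE : Strat (E : Set (Fin K → ℕ))) {i j k l : Fin K} (hij : i < j) (hjk : j < k)
    (hkl : k < l) (hik : Cn E i k) (hjl : Cn E j l) (hn : ¬ Cn E i j) : False := by
  obtain ⟨a, b, hia, ⟨v, hv, hva, hvb⟩, hPa, hPb⟩ :=
    boundary (fun x => j < x ∧ x < l) hik (fun h => absurd h.1 (not_lt.2 hij.le)) ⟨hjk, hkl⟩
  have hib : Cn E i b := hia.tail ⟨v, hv, hva, hvb⟩
  have haj : a ≠ j := fun h => hn (h ▸ hia)
  have hal : a ≠ l := fun h => hn (by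
    have h1 : Cn E i l := h ▸ hia
    exact h1.trans (Cn.symm E hjl))
  -- the sets of vertices connected to j avoid a and b
  have havoid : ∀ d, Cn E j d → d ≠ a ∧ d ≠ b := by
    intro d hd
    refine ⟨?_, ?_⟩
    · rintro rfl; exact hn (hia.trans (Cn.symm E hd))
    · rintro rfl; exact hn (hib.trans (Cn.symm E hd))
  have hS := hE.2
  simp only [not_and_or, not_lt] at hPa
  rcases hPa with h1 | h1
  · -- a < j < b < l
    have h1' : a < j := lt_of_le_of_ne h1 haj
    obtain ⟨c, d, hjc, ⟨w, hw, hwc, hwd⟩, hc, hd⟩ :=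
      boundary (fun x => ¬ (a < x ∧ x < b)) hjl (fun h => h ⟨h1', hPb.1⟩)
        (fun h => absurd h.2 (not_lt.2 hPb.2.le))
    have hjd : Cn E j d := hjc.tail ⟨w, hw, hwc, hwd⟩
    push Not at hc
    obtain ⟨hac, hcb⟩ := hc
    obtain ⟨hda, hdb⟩ := havoid d hjd
    rcases lt_or_gt_of_ne hda with h2 | h2
    · exact hS w (by exact_mod_cast hw) v (by exact_mod_cast hv) d a c b h2 hac hcb hwd hwc hva hvb
    · have h3 : b < d := by
        rcases lt_or_gt_of_ne hdb with h4 | h4
        · exact absurd ⟨h2, h4⟩ hd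
        · exact h4
      exact hS v (by exact_mod_cast hv) w (by exact_mod_cast hw) a c b d hac hcb h3 hva hvb hwc hwd
  · -- j < b < l < a
    have h1' : l < a := lt_of_le_of_ne h1 (Ne.symm hal)
    obtain ⟨c, d, hjc, ⟨w, hw, hwc, hwd⟩, hc, hd⟩ :=
      boundary (fun x => b < x ∧ x < a) hjl (fun h => absurd h.1 (not_lt.2 hPb.1.le)) ⟨hPb.2, h1'⟩
    obtain ⟨hca, hcb⟩ := havoid c hjc
    obtain ⟨hbd, hda⟩ := hd
    rcases lt_or_gt_of_ne hcb with h2 | h2
    · exact hS w (by exact_mod_cast hw) v (by exact_mod_cast hv) c b d a h2 hbd hda hwc hwd hvb hva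
    · have h3 : a < c := by
        rcases lt_or_gt_of_ne hca with h4 | h4
        · exact absurd ⟨h2, h4⟩ hc
        · exact h4
      exact hS v (by exact_mod_cast hv) w (by exact_mod_cast hw) b d a c hbd hda h3 hvb hva hwd hwc

theorem M6_holds : TargetM6 := by
  classical
  intro K E hE
  -- relation of each component
  have hex : ∀ q : Quotient (cset E), ∃ ρ : Fin K → ℚ, Perp E ρ ∧
      (∀ x, Quotient.mk (cset E) x ≠ q → ρ x = 0) ∧
      ∀ r, Perp E r → (∀ x, Quotient.mk (cset E) x ≠ q → r x = 0) → ∃ l : ℚ, ∀ x, r x = l * ρ x := by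
    intro q
    by_cases h : ∃ ρ : Fin K → ℚ, Perp E ρ ∧ (∀ x, Quotient.mk (cset E) x ≠ q → ρ x = 0) ∧
        ∃ i, ρ i ≠ 0
    · obtain ⟨ρ, h1, h2, h3⟩ := h
      exact ⟨ρ, h1, h2, fun r hr hs => unique_rel hE q h1 hr h2 hs h3⟩
    · push Not at h
      refine ⟨0, ?_, fun _ _ => rfl, ?_⟩
      · intro v hv; simp
      · intro r hr hs
        refine ⟨0, fun x => ?_⟩
        rw [h r hr hs x]; simp
  choose ρ hρ1 hρ2 hρ3 using hex
  let e := Fintype.equivFin (Quotient (cset E))
  refine ⟨Fintype.card (Quotient (cset E)), fun c => ρ (e.symm c), ⟨?_, ?_⟩, ?_⟩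
  · intro c c' hcc x hx
    apply hρ2
    intro h
    have h1 : Quotient.mk (cset E) x = e.symm c := by
      by_contra h2
      exact hx (hρ2 _ x h2)
    exact hcc (e.symm.injective (h1.symm.trans h))
  · intro c c' hcc i j k l hij hjk hkl hi hj hk hl
    have m1 : ∀ (c : Fin (Fintype.card (Quotient (cset E)))) x, ρ (e.symm c) x ≠ 0 →
        Quotient.mk (cset E) x = e.symm c := by
      intro c x hx
      by_contra h2
      exact hx (hρ2 _ x h2)
    have h1 := m1 _ _ hi
    have h2 := m1 _ _ hj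
    have h3 := m1 _ _ hk
    have h4 := m1 _ _ hl
    refine noncross hE hij hjk hkl (Quotient.exact (h1.trans h3.symm))
      (Quotient.exact (h2.trans h4.symm)) ?_
    intro h5
    have h6 : Quotient.mk (cset E) i = Quotient.mk (cset E) j := Quotient.sound h5
    exact hcc (e.symm.injective (h1.symm.trans (h6.trans h2)))
  · intro y
    constructor
    · intro hy c
      have hle : Submodule.span ℚ ((fun (v : Fin K → ℕ) (x : Fin K) => (v x : ℚ)) ''
          (E : Set (Fin K → ℕ))) ≤
          LinearMap.ker (∑ x, (ρ (e.symm c) x) • (LinearMap.proj x : (Fin K → ℚ) →ₗ[ℚ] ℚ)) := by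
        rw [Submodule.span_le]
        rintro _ ⟨v, hv, rfl⟩
        have := hρ1 (e.symm c) v (by exact_mod_cast hv)
        simpa using this
      have := hle hy
      simpa using this
    · intro hy
      have hy' : ∀ q, ∑ x, ρ q x * y x = 0 := by
        intro q
        have := hy (e q)
        simpa using this
      apply dual
      intro r hr
      rw [← Finset.sum_fiberwise (s := Finset.univ) (g := fun x => Quotient.mk (cset E) x)
        (f := fun x => r x * y x)]
      refine Finset.sum_eq_zero fun q _ => ?_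
      obtain ⟨l, hl⟩ := hρ3 q _ (restrict_perp q hr) (fun x hx => if_neg hx)
      rw [Finset.sum_filter]
      have : ∀ x, (if Quotient.mk (cset E) x = q then r x * y x else 0) = l * (ρ q x * y x) := by
        intro x
        have h1 := hl x
        by_cases hx : Quotient.mk (cset E) x = q
        · rw [if_pos hx] at h1 ⊢
          rw [h1]; ring
        · rw [if_neg hx] at h1 ⊢
          rw [← mul_assoc, ← h1, zero_mul]
      simp only [this]
      rw [← Finset.mul_sum, hy' q, mul_zero]

end Pool.Agent.H5.CF.M6mod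

namespace Pool.Agent.H5.CF

theorem M6_holds : TargetM6 := M6mod.M6_holds

end Pool.Agent.H5.CF
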