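import Pool.Agent.H5.CF.Targets
import Pool.Agent.H5.CF.Hull

set_option autoImplicit false

/-!
# Module M7a (dichotomy), by helper29
-/

namespace Pool.Agent.H5.CF

open scoped BigOperators

namespace M7aAux

variable {K m : ℕ} {ρ : Fin m → Fin K → ℚ} {q : Fin K → ℕ}

lemma exists_run {c : Fin m} {i : ℕ} (h : rc ρ q c i ≠ 0) : ∃ x, q x = i ∧ ρ c x ≠ 0 := by
  by_contra hcon
  push Not at hcon
  apply h
  unfold rc
  apply Finset.sum_eq_zero
  intro x _
  by_cases hx : q x = i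
  · rw [if_pos hx, hcon x hx]
  · rw [if_neg hx]

lemma lt_of_q (hq : Monotone q) {x y : Fin K} (h : q x < q y) : x < y := by
  by_contra hcon
  push Not at hcon
  have := hq hcon
  omega

/-- The colour sum, over a range of syllables. -/
lemma colour_sum (hCS : CS ρ q) (c : Fin m) (b : ℕ) (N : ℕ) (hN : ∀ x, q x < N) :
    ∑ i ∈ Finset.range N, (if i % 2 = b then rc ρ q c i else 0) = 0 := by
  refine Eq.trans ?_ (hCS c b)
  have h1 : ∀ i ∈ Finset.range N, (if i % 2 = b then rc ρ q c i else 0)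
      = ∑ x, (if q x = i then (if q x % 2 = b then ρ c x else 0) else 0) := by
    intro i _
    unfold rc
    by_cases hi : i % 2 = b
    · rw [if_pos hi]
      apply Finset.sum_congr rfl
      intro x _
      by_cases hx : q x = i
      · rw [if_pos hx, if_pos hx, if_pos (by rw [hx]; exact hi)]
      · rw [if_neg hx, if_neg hx]
    · rw [if_neg hi]
      symm
      apply Finset.sum_eq_zero
      intro x _
      by_cases hx : q x = i
      · rw [if_pos hx, if_neg (by rw [hx]; exact hi)]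
      · rw [if_neg hx]
  rw [Finset.sum_congr rfl h1, Finset.sum_comm]
  apply Finset.sum_congr rfl
  intro x _
  rw [Finset.sum_ite_eq]
  rw [if_pos (Finset.mem_range.2 (hN x))]

end M7aAux

open M7aAux in
/-- **M7a.** -/
theorem M7a_holds : TargetM7a := by
  intro K m ρ q hq hNC hCS
  by_cases h0 : ∀ c i, rc ρ q c i = 0
  · exact Or.inl h0
  right
  push Not at h0
  -- bound
  obtain ⟨N, hN⟩ : ∃ N, ∀ x, q x < N := by
    refine ⟨(Finset.univ.sup q) + 1, fun x => ?_⟩
    exact Nat.lt_succ_of_le (Finset.le_sup (f := q) (Finset.mem_univ x))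
  have hPN : ∀ c i, rc ρ q c i ≠ 0 → i < N := by
    intro c i h
    obtain ⟨x, hx, -⟩ := exists_run h
    rw [← hx]
    exact hN x
  have hNC1 : ∀ c c', c ≠ c' → ∀ i j k l, i < j → j < k → k < l →
      rc ρ q c i ≠ 0 → rc ρ q c' j ≠ 0 → rc ρ q c k ≠ 0 → rc ρ q c' l ≠ 0 → False := by
    intro c c' hcc i j k l hij hjk hkl h1 h2 h3 h4
    obtain ⟨x1, hx1, hr1⟩ := exists_run h1
    obtain ⟨x2, hx2, hr2⟩ := exists_run h2
    obtain ⟨x3, hx3, hr3⟩ := exists_run h3
    obtain ⟨x4, hx4, hr4⟩ := exists_run h4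
    exact hNC.2 c c' hcc x1 x2 x3 x4 (lt_of_q hq (by omega)) (lt_of_q hq (by omega))
      (lt_of_q hq (by omega)) hr1 hr2 hr3 hr4
  have hNC2 : ∀ c c', c ≠ c' → ∀ i j k, i < j → j < k →
      rc ρ q c i ≠ 0 → rc ρ q c j ≠ 0 → rc ρ q c k ≠ 0 →
      rc ρ q c' i ≠ 0 → rc ρ q c' j ≠ 0 → rc ρ q c' k ≠ 0 → False := by
    intro c c' hcc i j k hij hjk h1 h2 h3 h4 h5 h6
    obtain ⟨x1, hx1, hr1⟩ := exists_run h1
    obtain ⟨x2, hx2, hr2⟩ := exists_run h2
    obtain ⟨x3, hx3, hr3⟩ := exists_run h3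
    obtain ⟨y1, hy1, hs1⟩ := exists_run h4
    obtain ⟨y2, hy2, hs2⟩ := exists_run h5
    obtain ⟨y3, hy3, hs3⟩ := exists_run h6
    have hne : x1 ≠ y1 := by
      intro h
      subst h
      exact hs1 (hNC.1 c c' hcc x1 hr1)
    rcases lt_or_gt_of_ne hne with hlt | hlt
    · exact hNC.2 c c' hcc x1 y1 x2 y3 hlt (lt_of_q hq (by omega)) (lt_of_q hq (by omega))
        hr1 hs1 hr2 hs3
    · exact hNC.2 c' c hcc.symm y1 x1 y2 x3 hlt (lt_of_q hq (by omega)) (lt_of_q hq (by omega))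
        hs1 hr1 hs2 hr3
  have hCS' : ∀ c i, rc ρ q c i ≠ 0 → ∃ i', i' ≠ i ∧ i' % 2 = i % 2 ∧ rc ρ q c i' ≠ 0 := by
    intro c i h
    by_contra hcon
    push Not at hcon
    have hsum := colour_sum hCS c (i % 2) N hN
    rw [Finset.sum_eq_single i] at hsum
    · rw [if_pos rfl] at hsum
      exact h hsum
    · intro j _ hji
      by_cases hj : j % 2 = i % 2
      · rw [if_pos hj, hcon j hji hj]
      · rw [if_neg hj]
    · intro hi
      exact absurd (Finset.mem_range.2 (hPN c i h)) hi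
  obtain ⟨D, A, B, hAB, hDA, hDB, hDh, hint⟩ := hull_exists (fun c i => rc ρ q c i ≠ 0) N hPN
    hNC1 hNC2 (fun c i h => by
      obtain ⟨i', h1, -, h3⟩ := hCS' c i h
      exact ⟨i', h1, h3⟩) h0
  obtain ⟨xB, hxB, -⟩ := exists_run hDB
  by_cases hfree : ∃ z, A < z ∧ z < B ∧ rc ρ q D z = 0
  · left
    obtain ⟨z, hAz, hzB, hDz⟩ := hfree
    refine ⟨z, by omega, fun c => ?_, xB, by omega⟩
    by_cases hc : c = D
    · rw [hc, hDz]
    · have := hint c hc z hAz hzB
      push Not at this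
      exact this
  · right
    push Not at hfree
    -- `A + 2 ≤ B`
    have hB2 : A + 2 ≤ B := by
      obtain ⟨i', h1, h2, h3⟩ := hCS' D A hDA
      have := hDh i' h3
      omega
    have hB3 : A + 3 ≤ B := by
      by_contra hcon
      have h1 := hfree (A + 1) (by omega) (by omega)
      obtain ⟨i', h1, h2, h3⟩ := hCS' D (A + 1) h1
      have := hDh i' h3
      omega
    refine ⟨D, A + 1, by omega, hfree (A + 1) (by omega) (by omega),
      hfree (A + 1 + 1) (by omega) (by omega), fun c hc => ?_, xB, by omega⟩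
    have h1 := hint c hc (A + 1) (by omega) (by omega)
    have h2 := hint c hc (A + 1 + 1) (by omega) (by omega)
    push Not at h1 h2
    exact ⟨h1, h2⟩

end Pool.Agent.H5.CF
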