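import Pool.Agent.H5.CF.Targets
import Pool.Agent.H5.CF.Hull

set_option autoImplicit false

/-!
# Module M8 (Lemma B'), by helper29
-/

namespace Pool.Agent.H5.CF

open scoped BigOperators

namespace M8Aux

/-- explicit form of the lamps of a moved zero syllable -/
lemma lf_expand (h : Fin 3 → ℤ) (s : Fin 8 → ℤ) (z : ℤ) :
    lf (fun k => h (cls k) + s k) z =
      (if h 0 + s 0 = z then 1 else 0) + (if h 1 + s 1 = z then 1 else 0) +
      (if h 0 + s 2 = z then 1 else 0) + (if h 2 + s 3 = z then 1 else 0) +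
      (if h 0 + s 4 = z then 1 else 0) + (if h 1 + s 5 = z then 1 else 0) +
      (if h 0 + s 6 = z then 1 else 0) + (if h 2 + s 7 = z then 1 else 0) := by
  unfold lf
  rw [Fin.sum_univ_eight]
  rfl

lemma two_eq (x : ZMod 2) : x + x = 0 := by
  revert x; decide

/-- moving one atom -/
lemma PB_single (k : Fin 8) (M : ℤ) : PB (cls k) M (fun j => if j = k then M else 0) := by
  intro h z
  rw [lf_expand]
  fin_cases k <;> simp [cls] <;> grind [two_eq]

/-- moving two class-0 atoms to the same height and another one to the height `d` -/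
lemma PB_triple (k l p : Fin 8) (hk : k = 2 ∨ k = 4 ∨ k = 6) (hl : l = 2 ∨ l = 4 ∨ l = 6)
    (hp : p = 2 ∨ p = 4 ∨ p = 6) (hkl : k ≠ l) (hkp : k ≠ p) (hlp : l ≠ p) (u d : ℤ) :
    PB 0 d (fun j => if j = k ∨ j = l then u else if j = p then d else 0) := by
  intro h z
  rw [lf_expand]
  rcases hk with rfl | rfl | rfl <;> rcases hl with rfl | rfl | rfl <;>
    rcases hp with rfl | rfl | rfl <;>
    first
    | exact absurd rfl hkl
    | exact absurd rfl hkp
    | exact absurd rfl hlp
    | (simp; grind [two_eq])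

lemma sum_single (r : Fin 8 → ℚ) (k : Fin 8) :
    ∑ j, r j * (((if j = k then 1 else 0 : ℤ) : ℤ) : ℚ) = r k := by
  rw [Finset.sum_eq_single k]
  · simp
  · intro j _ hj
    simp [hj]
  · simp

lemma sum_triple (r : Fin 8 → ℚ) (k l p : Fin 8) (hkl : k ≠ l) (hkp : k ≠ p) (hlp : l ≠ p)
    (u d : ℤ) :
    ∑ j, r j * (((if j = k ∨ j = l then u else if j = p then d else 0 : ℤ) : ℤ) : ℚ)
      = (r k + r l) * u + r p * d := by
  have h : ∀ j, r j * (((if j = k ∨ j = l then u else if j = p then d else 0 : ℤ) : ℤ) : ℚ)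
      = (if j = k then r k * u else 0) + (if j = l then r l * u else 0)
        + (if j = p then r p * d else 0) := by
    intro j
    by_cases h1 : j = k
    · subst h1
      simp [hkl, hkp]
    · by_cases h2 : j = l
      · subst h2
        simp [h1, hlp]
      · by_cases h3 : j = p
        · subst h3
          simp [h1, h2]
        · simp [h1, h2, h3]
  rw [Finset.sum_congr rfl fun j _ => h j, Finset.sum_add_distrib, Finset.sum_add_distrib,
    Finset.sum_ite_eq', Finset.sum_ite_eq', Finset.sum_ite_eq']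
  simp
  ring

/-- the third alternative: three private atoms -/
lemma private_case {m : ℕ} (r : Fin m → Fin 8 → ℚ) (D : Fin m) (k l p : Fin 8)
    (hk : k = 2 ∨ k = 4 ∨ k = 6) (hl : l = 2 ∨ l = 4 ∨ l = 6)
    (hp : p = 2 ∨ p = 4 ∨ p = 6) (hkl : k ≠ l) (hkp : k ≠ p) (hlp : l ≠ p)
    (hpriv : ∀ c, c ≠ D → r c k = 0 ∧ r c l = 0 ∧ r c p = 0) (hsum : r D k + r D l ≠ 0) :
    ∃ (b : Fin 3) (d : ℤ) (s : Fin 8 → ℤ), 0 < d ∧
      (∀ M : ℤ, 0 < M → PB b (M * d) (fun k => M * s k)) ∧
      ∀ c, ∑ k, r c k * (s k : ℚ) = 0 := by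
  -- integers `u`, `d` with `(r k + r l) u + r p d = 0`, `0 < d`
  obtain ⟨u, d, hd, hud⟩ : ∃ u d : ℤ, 0 < d ∧ (r D k + r D l) * u + r D p * d = 0 := by
    set x := r D k + r D l with hx
    set y := r D p with hy
    -- `u / d = - y / x`
    refine ⟨(-y / x).num, (-y / x).den, by exact_mod_cast (-y / x).den_pos, ?_⟩
    have h1 : ((-y / x).den : ℚ) ≠ 0 := by exact_mod_cast (-y / x).den_nz
    have h2 : ((-y / x).num : ℚ) = (-y / x) * (-y / x).den := by
      rw [Rat.mul_den_eq_num]
    push_cast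
    rw [h2]
    field_simp
    ring
  refine ⟨0, d, fun j => if j = k ∨ j = l then u else if j = p then d else 0, hd, ?_, ?_⟩
  · intro M _
    have := PB_triple k l p hk hl hp hkl hkp hlp (M * u) (M * d)
    convert this using 1
    funext j
    by_cases h1 : j = k ∨ j = l
    · simp only [if_pos h1]
    · by_cases h3 : j = p
      · simp only [if_neg h1, if_pos h3]
      · simp only [if_neg h1, if_neg h3, mul_zero]
  · intro c
    rw [sum_triple (r c) k l p hkl hkp hlp]
    by_cases hc : c = D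
    · subst hc
      exact hud
    · obtain ⟨h1, h2, h3⟩ := hpriv c hc
      rw [h1, h2, h3]
      ring

end M8Aux

open M8Aux in
/-- **M8 (Lemma B').** -/
theorem M8_holds : TargetM8 := by
  intro m r hNC1 hNC2 hcl
  -- a free atom
  by_cases hfree : ∃ k, ∀ c, r c k = 0
  · obtain ⟨k, hk⟩ := hfree
    refine ⟨cls k, 1, fun j => if j = k then 1 else 0, one_pos, ?_, ?_⟩
    · intro M _
      have := PB_single k (M * 1)
      convert this using 1
      funext j
      by_cases h1 : j = k
      · simp only [if_pos h1]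
      · simp only [if_neg h1, mul_zero]
    · intro c
      rw [sum_single, hk]
  push Not at hfree
  let P : Fin m → ℕ → Prop := fun c i => ∃ h : i < 8, r c ⟨i, h⟩ ≠ 0
  have hP : ∀ c (k : Fin 8), P c k ↔ r c k ≠ 0 := by
    intro c k
    exact ⟨fun ⟨_, h⟩ => h, fun h => ⟨k.2, h⟩⟩
  -- class sums
  have h0 : ∀ c, r c 0 + r c 2 + r c 4 + r c 6 = 0 := by
    intro c
    have := hcl c 0
    rw [Fin.sum_univ_eight] at this
    simpa [cls] using this
  have h1 : ∀ c, r c 1 + r c 5 = 0 := by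
    intro c
    have := hcl c 1
    rw [Fin.sum_univ_eight] at this
    simpa [cls] using this
  have h2 : ∀ c, r c 3 + r c 7 = 0 := by
    intro c
    have := hcl c 2
    rw [Fin.sum_univ_eight] at this
    simpa [cls] using this
  -- every support which meets a class meets it twice
  have h15 : ∀ c, P c 1 ↔ P c 5 := by
    intro c
    have e1 := hP c 1
    have e5 := hP c 5
    have := h1 c
    constructor
    · intro h
      refine e5.2 fun h' => e1.1 h ?_
      rw [h'] at this
      simpa using this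
    · intro h
      refine e1.2 fun h' => e5.1 h ?_
      rw [h'] at this
      simpa using this
  have h37 : ∀ c, P c 3 ↔ P c 7 := by
    intro c
    have e1 := hP c 3
    have e5 := hP c 7
    have := h2 c
    constructor
    · intro h
      refine e5.2 fun h' => e1.1 h ?_
      rw [h'] at this
      simpa using this
    · intro h
      refine e1.2 fun h' => e5.1 h ?_
      rw [h'] at this
      simpa using this
  have hev : ∀ c, ∀ i, P c i → i % 2 = 0 → ∃ i', i' ≠ i ∧ i' % 2 = 0 ∧ P c i' := by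
    intro c i hi hi2
    by_contra hcon
    push Not at hcon
    obtain ⟨hi8, hri⟩ := hi
    have hz : ∀ k : Fin 8, (k : ℕ) % 2 = 0 → (k : ℕ) ≠ i → r c k = 0 := by
      intro k hk hki
      have := hcon k hki hk
      rw [hP] at this
      push Not at this
      exact this
    have h := h0 c
    have hi' : i = 0 ∨ i = 2 ∨ i = 4 ∨ i = 6 := by omega
    rcases hi' with rfl | rfl | rfl | rfl
    · rw [hz 2 rfl (by decide), hz 4 rfl (by decide), hz 6 rfl (by decide)] at h
      exact hri (by simpa using h)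
    · rw [hz 0 rfl (by decide), hz 4 rfl (by decide), hz 6 rfl (by decide)] at h
      exact hri (by simpa using h)
    · rw [hz 0 rfl (by decide), hz 2 rfl (by decide), hz 6 rfl (by decide)] at h
      exact hri (by simpa using h)
    · rw [hz 0 rfl (by decide), hz 2 rfl (by decide), hz 4 rfl (by decide)] at h
      exact hri (by simpa using h)
  have hP8 : ∀ c i, P c i → i < 8 := fun c i ⟨h, _⟩ => h
  have htwo : ∀ c i, P c i → ∃ i', i' ≠ i ∧ P c i' := by
    intro c i hi
    by_cases hi2 : i % 2 = 0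
    · obtain ⟨i', h1, -, h3⟩ := hev c i hi hi2
      exact ⟨i', h1, h3⟩
    · have := hP8 c i hi
      have : i = 1 ∨ i = 3 ∨ i = 5 ∨ i = 7 := by omega
      rcases this with rfl | rfl | rfl | rfl
      · exact ⟨5, by decide, (h15 c).1 hi⟩
      · exact ⟨7, by decide, (h37 c).1 hi⟩
      · exact ⟨1, by decide, (h15 c).2 hi⟩
      · exact ⟨3, by decide, (h37 c).2 hi⟩
  have hne : ∃ c i, P c i := by
    obtain ⟨c, hc⟩ := hfree 0
    exact ⟨c, 0, (hP c 0).2 hc⟩
  obtain ⟨D, A, B, hAB, hDA, hDB, hDh, hint⟩ := hull_exists P 8 hP8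
    (by
      rintro c c' hcc i j k l hij hjk hkl ⟨a1, b1⟩ ⟨a2, b2⟩ ⟨a3, b3⟩ ⟨a4, b4⟩
      exact hNC1 c c' hcc ⟨i, a1⟩ ⟨j, a2⟩ ⟨k, a3⟩ ⟨l, a4⟩ hij hjk hkl b1 b2 b3 b4)
    (by
      rintro c c' hcc i j k hij hjk ⟨a1, b1⟩ ⟨a2, b2⟩ ⟨a3, b3⟩ ⟨a4, b4⟩ ⟨a5, b5⟩ ⟨a6, b6⟩
      exact hNC2 c c' hcc ⟨i, a1⟩ ⟨j, a2⟩ ⟨k, a3⟩ hij hjk b1 b2 b3 b4 b5 b6)
    htwo hne
  have hB8 := hP8 D B hDB
  -- interior points belong to `D`
  have hDint : ∀ z, A < z → z < B → P D z := by
    intro z hAz hzB
    obtain ⟨c, hc⟩ := hfree ⟨z, by omega⟩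
    have hPc : P c z := ⟨by omega, hc⟩
    by_cases hcD : c = D
    · exact hcD ▸ hPc
    · exact absurd hPc (hint c hcD z hAz hzB)
  have hDall : ∀ z, A ≤ z → z ≤ B → P D z := by
    intro z hAz hzB
    rcases eq_or_lt_of_le hAz with h | h
    · exact h ▸ hDA
    · rcases eq_or_lt_of_le hzB with h' | h'
      · exact h' ▸ hDB
      · exact hDint z h h'
  -- `A ≤ 1` and `B = 7`
  have hc1 : (A ≤ 1 ∧ 1 ≤ B) ↔ (A ≤ 5 ∧ 5 ≤ B) := by
    constructor
    · rintro ⟨h, h'⟩
      exact hDh 5 ((h15 D).1 (hDall 1 h h'))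
    · rintro ⟨h, h'⟩
      exact hDh 1 ((h15 D).2 (hDall 5 h h'))
  have hc3 : (A ≤ 3 ∧ 3 ≤ B) ↔ (A ≤ 7 ∧ 7 ≤ B) := by
    constructor
    · rintro ⟨h, h'⟩
      exact hDh 7 ((h37 D).1 (hDall 3 h h'))
    · rintro ⟨h, h'⟩
      exact hDh 3 ((h37 D).2 (hDall 7 h h'))
  have hAv : A % 2 = 0 → A + 2 ≤ B := by
    intro hA
    obtain ⟨i', h1, h2, h3⟩ := hev D A hDA hA
    have := hDh i' h3
    omega
  have hA1 : A ≤ 1 := by omega
  have hB7 : B = 7 := by omega
  have hp2 : ∀ c, c ≠ D → r c 2 = 0 := by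
    intro c hc
    have := hint c hc 2 (by omega) (by omega)
    have e := hP c 2
    by_contra hcon
    exact this (e.2 hcon)
  have hp4 : ∀ c, c ≠ D → r c 4 = 0 := by
    intro c hc
    have := hint c hc 4 (by omega) (by omega)
    have e := hP c 4
    by_contra hcon
    exact this (e.2 hcon)
  have hp6 : ∀ c, c ≠ D → r c 6 = 0 := by
    intro c hc
    have := hint c hc 6 (by omega) (by omega)
    have e := hP c 6
    by_contra hcon
    exact this (e.2 hcon)
  have hx2 : r D 2 ≠ 0 := (hP D 2).1 (hDint 2 (by omega) (by omega))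
  by_cases h24 : r D 2 + r D 4 = 0
  · by_cases h26 : r D 2 + r D 6 = 0
    · have h46 : r D 4 + r D 6 ≠ 0 := by
        intro h
        apply hx2
        linarith
      exact private_case r D 4 6 2 (by decide) (by decide) (by decide) (by decide) (by decide)
        (by decide) (fun c hc => ⟨hp4 c hc, hp6 c hc, hp2 c hc⟩) h46
    · exact private_case r D 2 6 4 (by decide) (by decide) (by decide) (by decide) (by decide)
        (by decide) (fun c hc => ⟨hp2 c hc, hp6 c hc, hp4 c hc⟩) h26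
  · exact private_case r D 2 4 6 (by decide) (by decide) (by decide) (by decide) (by decide)
      (by decide) (fun c hc => ⟨hp2 c hc, hp4 c hc, hp6 c hc⟩) h24

end Pool.Agent.H5.CF
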