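import Pool.Agent.H5.CF.Targets

set_option autoImplicit false

/-!
# Module SEL (selection)
-/

namespace Pool.Agent.H5.CF.SELmod

open Pool.Agent.H5.CF

/-- A rank bound from finitely many functionals. -/
lemma rank_bound (V : Submodule ℚ (ℕ → ℚ)) {n k : ℕ} (R : (ℕ → ℚ) →ₗ[ℚ] (Fin n → ℚ))
    (G : (ℕ → ℚ) →ₗ[ℚ] (Fin k → ℚ)) (h : ∀ σ ∈ V, G σ = 0 → R σ = 0) :
    Module.finrank ℚ (V.map R) ≤ k := by
  have hmem : ∀ v : V, R.domRestrict V v ∈ V.map R := fun v => ⟨v, v.2, rfl⟩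
  set RV : V →ₗ[ℚ] V.map R := (R.domRestrict V).codRestrict (V.map R) hmem with hRV
  have hsurj : Function.Surjective RV := by
    rintro ⟨y, v, hv, rfl⟩
    exact ⟨⟨v, hv⟩, rfl⟩
  obtain ⟨s, hs⟩ := RV.exists_rightInverse_of_surjective (LinearMap.range_eq_top.2 hsurj)
  have hinj : Function.Injective ((G.domRestrict V).comp s) := by
    rw [← LinearMap.ker_eq_bot, LinearMap.ker_eq_bot']
    intro y hy
    have h1 : G (s y : ℕ → ℚ) = 0 := hy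
    have h2 : R (s y : ℕ → ℚ) = 0 := h _ (s y).2 h1
    have h3 : RV (s y) = y := by
      have := LinearMap.congr_fun hs y
      simpa using this
    rw [← h3]
    apply Subtype.ext
    exact h2
  have := LinearMap.finrank_le_finrank_of_injective hinj
  simpa using this

/-- evaluation at `i` -/
def pj (i : ℕ) : (ℕ → ℚ) →ₗ[ℚ] ℚ := LinearMap.proj i

lemma pj_apply (i : ℕ) (σ : ℕ → ℚ) : pj i σ = σ i := rfl

/-- The dichotomy for one colour. -/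
lemma pairs (V : Submodule ℚ (ℕ → ℚ)) (u v a b : ℕ) (P Q : ℕ → Prop) :
    (∃ i j, P i ∧ Q j ∧
      (∃ σ ∈ V, σ u = σ v ∧ σ i - σ a ≠ 0 ∧ σ j - σ b = 0) ∧
      (∃ σ ∈ V, σ u = σ v ∧ σ i - σ a = 0 ∧ σ j - σ b ≠ 0)) ∨
    (∃ g : Fin 3 → (ℕ → ℚ) →ₗ[ℚ] ℚ, ∀ σ ∈ V, (∀ k, g k σ = 0) → ∀ i, P i → σ i = 0) ∨
    (∃ g : Fin 3 → (ℕ → ℚ) →ₗ[ℚ] ℚ, ∀ σ ∈ V, (∀ k, g k σ = 0) → ∀ j, Q j → σ j = 0) := by
  classical
  by_cases hA : ∀ σ ∈ V, σ u = σ v → ∀ i, P i → σ i - σ a = 0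
  · right; left
    refine ⟨![pj u - pj v, pj a, 0], ?_⟩
    intro σ hσ hg i hi
    have h0 := hg 0
    have h1 := hg 1
    simp only [Matrix.cons_val_zero, Matrix.cons_val_one, LinearMap.sub_apply,
      pj_apply] at h0 h1
    have h2 := hA σ hσ (by linarith) i hi
    linarith
  · push Not at hA
    obtain ⟨σ₀, hσ₀, huv₀, i₀, hi₀, hne₀⟩ := hA
    by_cases hB : ∀ σ ∈ V, σ u = σ v → σ b = 0 → σ i₀ - σ a = 0 → ∀ j, Q j → σ j = 0
    · right; right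
      refine ⟨![pj u - pj v, pj b, pj i₀ - pj a], ?_⟩
      intro σ hσ hg j hj
      have h0 := hg 0
      have h1 := hg 1
      have h2 := hg 2
      simp only [Matrix.cons_val_zero, Matrix.cons_val_one, Matrix.cons_val, LinearMap.sub_apply,
        pj_apply] at h0 h1 h2
      exact hB σ hσ (by linarith) h1 h2 j hj
    · left
      push Not at hB
      obtain ⟨σ, hσ, huv, hb, hi, j, hj, hne⟩ := hB
      have hne' : σ j - σ b ≠ 0 := by rw [hb, sub_zero]; exact hne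
      refine ⟨i₀, j, hi₀, hj, ?_, σ, hσ, huv, hi, hne'⟩
      refine ⟨σ₀ - ((σ₀ j - σ₀ b) / (σ j - σ b)) • σ, V.sub_mem hσ₀ (V.smul_mem _ hσ), ?_, ?_, ?_⟩
      · simp only [Pi.sub_apply, Pi.smul_apply, smul_eq_mul, huv₀, huv]
      · simp only [Pi.sub_apply, Pi.smul_apply, smul_eq_mul]
        have : σ₀ i₀ - (σ₀ j - σ₀ b) / (σ j - σ b) * σ i₀ -
            (σ₀ a - (σ₀ j - σ₀ b) / (σ j - σ b) * σ a) =
            (σ₀ i₀ - σ₀ a) - (σ₀ j - σ₀ b) / (σ j - σ b) * (σ i₀ - σ a) := by ring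
        rw [this, hi, mul_zero, sub_zero]
        exact hne₀
      · simp only [Pi.sub_apply, Pi.smul_apply, smul_eq_mul]
        field_simp
        ring

/-- Two families of three functionals bound the rank of the restriction to a segment. -/
lemma seg_bound (V : Submodule ℚ (ℕ → ℚ)) (p : ℕ) (P Q : ℕ → Prop)
    (g h : Fin 3 → (ℕ → ℚ) →ₗ[ℚ] ℚ)
    (hg : ∀ σ ∈ V, (∀ k, g k σ = 0) → ∀ i, P i → σ i = 0)
    (hh : ∀ σ ∈ V, (∀ k, h k σ = 0) → ∀ j, Q j → σ j = 0)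
    (hPQ : ∀ i, i < 12 → P (p + i) ∨ Q (p + i)) :
    Module.finrank ℚ (V.map (res p 12)) ≤ 6 := by
  refine rank_bound V (res p 12) (LinearMap.pi (Fin.append g h : Fin (3 + 3) → _)) ?_
  intro σ hσ hG
  have hgk : ∀ k, g k σ = 0 := by
    intro k
    have := congr_fun hG (Fin.castAdd 3 k)
    rw [LinearMap.pi_apply, Fin.append_left] at this
    simpa using this
  have hhk : ∀ k, h k σ = 0 := by
    intro k
    have := congr_fun hG (Fin.natAdd 3 k)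
    rw [LinearMap.pi_apply, Fin.append_right] at this
    simpa using this
  funext i
  rcases hPQ i i.2 with h1 | h1
  · exact hg σ hσ hgk _ h1
  · exact hh σ hσ hhk _ h1

theorem SEL_holds : TargetSEL := by
  intro V hV
  have hE := pairs V 13 39 0 26
    (fun i => i < 52 ∧ i % 2 = 0 ∧ i ≠ 0 ∧ (i < 13 ∨ 39 < i))
    (fun j => j < 52 ∧ j % 2 = 0 ∧ j ≠ 26 ∧ (13 < j ∧ j < 39))
  have hO := pairs V 0 26 13 39
    (fun i => i < 52 ∧ i % 2 = 1 ∧ i ≠ 13 ∧ i < 26)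
    (fun j => j < 52 ∧ j % 2 = 1 ∧ j ≠ 39 ∧ 26 < j)
  rcases hE with ⟨i, j, ⟨hi52, hi⟩, ⟨hj52, hj⟩, h1, h2⟩ | hE
  · left
    exact ⟨⟨i, hi52⟩, ⟨j, hj52⟩, hi, hj, h1, h2⟩
  rcases hO with ⟨i, j, ⟨hi52, hi⟩, ⟨hj52, hj⟩, h1, h2⟩ | hO
  · right
    exact ⟨⟨i, hi52⟩, ⟨j, hj52⟩, hi, hj, h1, h2⟩
  exfalso
  rcases hE with ⟨g, hg⟩ | ⟨g, hg⟩ <;> rcases hO with ⟨h, hh⟩ | ⟨h, hh⟩
  · have := hV 1 (by simp)
    have h2 := seg_bound V 1 _ _ g h hg hh (by intro i hi; omega)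
    omega
  · have := hV 40 (by simp)
    have h2 := seg_bound V 40 _ _ g h hg hh (by intro i hi; omega)
    omega
  · have := hV 14 (by simp)
    have h2 := seg_bound V 14 _ _ g h hg hh (by intro i hi; omega)
    omega
  · have := hV 27 (by simp)
    have h2 := seg_bound V 27 _ _ g h hg hh (by intro i hi; omega)
    omega

end Pool.Agent.H5.CF.SELmod

namespace Pool.Agent.H5.CF

theorem SEL_holds : TargetSEL := SELmod.SEL_holds

end Pool.Agent.H5.CF
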