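import Pool.Agent.H5.CF.Targets

set_option autoImplicit false

/-!
# Structure theorem (assembly)
-/

namespace Pool.Agent.H5.CF

theorem ST_of (h1 : TargetM1) (h2 : TargetM2) (h3 : TargetM3) : TargetST := by
  classical
  intro T g K v hv
  obtain ⟨A, p, F, hA⟩ := h3 T K v hv
  have := A.fin
  choose S ℓ hS using fun q => h2 T g K A p q
  choose 𝒮 hfin hstrat h𝒮 using fun q => h1 K (S q) (ℓ q)
  refine ⟨⋃ q ∈ F, 𝒮 q, (Set.toFinite F).biUnion (fun q _ => hfin q), ?_, ?_⟩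
  · intro X hX
    simp only [Set.mem_iUnion] at hX
    obtain ⟨q, _, hX⟩ := hX
    exact hstrat q X hX
  · intro n
    constructor
    · intro h
      obtain ⟨q, hq, hr⟩ := (hA _ n).mp rfl
      obtain ⟨X, hX, hn⟩ := (h𝒮 q n).mp ((hS q n).mpr ⟨_, h, hr⟩)
      exact ⟨X, by simp only [Set.mem_iUnion]; exact ⟨q, hq, hX⟩, hn⟩
    · rintro ⟨X, hX, hn⟩
      simp only [Set.mem_iUnion] at hX
      obtain ⟨q, hq, hX⟩ := hX
      obtain ⟨w, hw, hr⟩ := (hS q n).mp ((h𝒮 q n).mpr ⟨X, hX, hn⟩)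
      have := (hA w n).mpr ⟨q, hq, hr⟩
      rwa [← this]

end Pool.Agent.H5.CF
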